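import Mathlib

set_option autoImplicit false

open MeasureTheory Filter Topology
open scoped BigOperators ENNReal

namespace Pool.H878.ERW

/-- exponent of the growth at level `j` -/
def cexp (j : ℕ) : ℕ := 20 * (j + 3) ^ 3

/-- periods -/
def NN : ℕ → ℕ
  | 0 => 2
  | (j + 1) => 2 * (j + 3) ^ 2 * (NN j * 2 ^ (cexp j))

/-- length of the bad stretch (and of the pumping stretch) of level `j` -/
def LL (j : ℕ) : ℕ := NN j * 2 ^ (cexp j)

/-- `r` (a residue modulo `NN (j+1)`) lies in the special block of level `j` -/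
def InS (j r : ℕ) : Prop := NN (j + 1) ≤ r + 2 * LL j

instance (j r : ℕ) : Decidable (InS j r) := by unfold InS; infer_instance

/-- total drift of a site with residue `r` in the environment of level `j` -/
def fz : ℕ → ℕ → ℤ
  | 0, r => if r % 2 = 0 then 0 else 3
  | (j + 1), r =>
      if NN (j + 1) ≤ r + LL j then 3
      else if NN (j + 1) ≤ r + 2 * LL j then -3
      else fz j (r % NN j)

open Classical in
/-- total drift of a site whose residues are `r 0, r 1, …` -/
noncomputable def DD (r : ℕ → ℕ) : ℤ :=
  if h : ∃ J, ∀ j, J ≤ j → ¬ InS j (r (j + 1)) then fz (Nat.find h) (r (Nat.find h)) else 3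

/-- number of initial cookies of strength `1` -/
def ca (d : ℤ) : ℕ := if d = 3 then 3 else if d = -3 then 1 else 0
/-- number of following cookies of strength `0` -/
def cb (d : ℤ) : ℕ := if d = -3 then 4 else 0

/-- cookie environment with `a x` cookies of strength `1`, then `b x` cookies of strength `0` -/
noncomputable def om (a b : ℤ → ℕ) (x : ℤ) (i : ℕ) : ℝ :=
  if i = 0 then 1 / 2 else if i ≤ a x then 1 else if i ≤ a x + b x then 0 else 1 / 2

/-- the product which bounds the probability that an excursion to the right has maximum `N` -/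
noncomputable def PP (a b : ℤ → ℕ) (N : ℕ) : ℝ :=
  ∏ y ∈ Finset.Icc 1 N, ((1 - 1 / ((N : ℝ) + 1 - y)) ^ a y * (1 + 1 / ((N : ℝ) + 1 - y)) ^ b y)

/-- probability that the walk, at `x` with `c y` previous departures from `y`, stays `≥ 1` during
its next `n` steps -/
noncomputable def stay (w : ℤ → ℕ → ℝ) : ℕ → ℤ → (ℤ → ℕ) → ℝ
  | 0, _, _ => 1
  | (n + 1), x, c =>
      w x (c x + 1) * (if 1 ≤ x + 1 then stay w n (x + 1) (Function.update c x (c x + 1)) else 0)
      + (1 - w x (c x + 1)) *
        (if 1 ≤ x - 1 then stay w n (x - 1) (Function.update c x (c x + 1)) else 0)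

/-- A consistent family of residues (an orbit of the odometer). -/
structure Cons (r : ℕ → ℤ → ℕ) : Prop where
  lt : ∀ j x, r j x < NN j
  succ : ∀ j x, r j (x + 1) = (r j x + 1) % NN j
  compat : ∀ j x, r j x = r (j + 1) x % NN j
  fin : ∀ x, ∃ J, ∀ j, J ≤ j → ¬ InS j (r (j + 1) x)

/-- number of visits of the path to its current position up to time `j` (included) -/
def visits (p : ℕ → ℤ) (j : ℕ) : ℕ := ((Finset.range (j + 1)).filter (fun m => p m = p j)).card

/-- one step transition probability of the excited random walk along the path `p` at time `j` -/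
noncomputable def stepProb (w : ℤ → ℕ → ℝ) (p : ℕ → ℤ) (j : ℕ) : ℝ :=
  if p (j + 1) = p j + 1 then w (p j) (visits p j)
  else if p (j + 1) = p j - 1 then 1 - w (p j) (visits p j) else 0

/-- `X` is the excited random walk started at `0` in the random cookie environment `env` -/
structure IsERW {Ω : Type} [MeasurableSpace Ω] (μ : Measure Ω) (env : Ω → ℤ → ℕ → ℝ)
    (X : ℕ → Ω → ℤ) : Prop where
  law : ∀ (n : ℕ) (p : ℕ → ℤ) (A : Set (ℤ → ℕ → ℝ)), MeasurableSet A →
    μ {w | env w ∈ A ∧ ∀ j, j ≤ n → X j w = p j} =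
      if p 0 = 0 then
        ∫⁻ w in {w | env w ∈ A}, ∏ j ∈ Finset.range n, ENNReal.ofReal (stepProb (env w) p j) ∂μ
      else 0


end Pool.H878.ERW
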