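import Pool.Agent.Helper878.ERW.Defs

set_option autoImplicit false

open MeasureTheory Filter Topology
open scoped BigOperators ENNReal

namespace Pool.H878.ERW



lemma NN_pos (j : ℕ) : 0 < NN j := by
  induction j with
  | zero => simp [NN]
  | succ j ih => rw [NN]; positivity

lemma LL_pos (j : ℕ) : 0 < LL j := by
  unfold LL
  have := NN_pos j
  positivity

lemma NN_le_LL (j : ℕ) : NN j ≤ LL j := by
  unfold LL
  exact Nat.le_mul_of_pos_right _ (by positivity)

lemma NN_succ (j : ℕ) : NN (j + 1) = 2 * (j + 3) ^ 2 * LL j := rfl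

lemma LL_mono : Monotone LL := by
  refine monotone_nat_of_le_succ fun j => ?_
  calc LL j ≤ NN (j + 1) := by
        rw [NN_succ]
        exact Nat.le_mul_of_pos_left _ (by positivity)
    _ ≤ LL (j + 1) := NN_le_LL _

lemma r_add {r : ℕ → ℤ → ℕ} (hr : Cons r) (j : ℕ) (x : ℤ) (t : ℕ) :
    r j (x + t) = (r j x + t) % NN j := by
  induction t with
  | zero => simp [Nat.mod_eq_of_lt (hr.lt j x)]
  | succ t ih =>
    push_cast
    rw [← add_assoc, hr.succ, ih, Nat.mod_add_mod, add_assoc]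

lemma fz_vals (j : ℕ) : ∀ r, fz j r = 0 ∨ fz j r = 3 ∨ fz j r = -3 := by
  induction j with
  | zero =>
    intro r
    unfold fz
    split_ifs
    · exact Or.inl rfl
    · exact Or.inr (Or.inl rfl)
  | succ j ih =>
    intro r
    unfold fz
    split_ifs
    · exact Or.inr (Or.inl rfl)
    · exact Or.inr (Or.inr rfl)
    · exact ih _

lemma fz_ge (j r : ℕ) : -3 ≤ fz j r := by
  rcases fz_vals j r with h | h | h <;> rw [h] <;> norm_num

lemma fz_le (j r : ℕ) : fz j r ≤ 3 := by
  rcases fz_vals j r with h | h | h <;> rw [h] <;> norm_num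

lemma fz_notInS {j r : ℕ} (h : ¬ InS j r) : fz (j + 1) r = fz j (r % NN j) := by
  unfold InS at h
  conv_lhs => unfold fz
  rw [if_neg (by omega), if_neg h]

open Classical in
lemma DD_spec {r : ℕ → ℤ → ℕ} (hr : Cons r) (x : ℤ) :
    ∃ J, (∀ i, J ≤ i → ¬ InS i (r (i + 1) x)) ∧
      (∀ J', (∀ i, J' ≤ i → ¬ InS i (r (i + 1) x)) → J ≤ J') ∧
      DD (fun j => r j x) = fz J (r J x) := by
  have h := hr.fin x
  refine ⟨Nat.find h, Nat.find_spec h, fun J hJ => Nat.find_min' h hJ, ?_⟩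
  unfold DD
  rw [dif_pos h]

lemma fz_const {r : ℕ → ℤ → ℕ} (hr : Cons r) (x : ℤ) (J : ℕ)
    (h : ∀ i, J ≤ i → ¬ InS i (r (i + 1) x)) (n : ℕ) (hn : J ≤ n) :
    fz n (r n x) = fz J (r J x) := by
  induction n, hn using Nat.le_induction with
  | base => rfl
  | succ n hn ih => rw [fz_notInS (h n hn), ← hr.compat, ih]

/-- top level structure -/
lemma DD_cases {r : ℕ → ℤ → ℕ} (hr : Cons r) (x : ℤ) (j : ℕ) :
    DD (fun j => r j x) = fz j (r j x) ∨
    (∃ j', j ≤ j' ∧ InS j' (r (j' + 1) x) ∧ DD (fun j => r j x) = 3) ∨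
    (∃ j', j ≤ j' ∧ InS j' (r (j' + 1) x) ∧ DD (fun j => r j x) = -3 ∧
      ¬ (NN (j' + 1) ≤ r (j' + 1) x + LL j')) := by
  obtain ⟨J, hJ, hmin, hD⟩ := DD_spec hr x
  rcases le_or_gt J j with h | h
  · left
    rw [hD, fz_const hr x J hJ j h]
  · right
    obtain ⟨j', rfl⟩ : ∃ j', J = j' + 1 := ⟨J - 1, by omega⟩
    have hS : InS j' (r (j' + 1) x) := by
      by_contra hS
      have := hmin j' (fun i hi => by
        rcases hi.eq_or_lt with rfl | hi
        · exact hS
        · exact hJ i hi)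
      omega
    by_cases h1 : NN (j' + 1) ≤ r (j' + 1) x + LL j'
    · left
      refine ⟨j', by omega, hS, ?_⟩
      rw [hD]
      unfold fz
      rw [if_pos h1]
    · right
      refine ⟨j', by omega, hS, ?_, h1⟩
      have hS' : NN (j' + 1) ≤ r (j' + 1) x + 2 * LL j' := hS
      rw [hD]
      unfold fz
      rw [if_neg h1, if_pos hS']

lemma no_S {r : ℕ → ℤ → ℕ} (hr : Cons r) (N : ℤ) (hN : DD (fun j => r j N) = 0) (i : ℕ) :
    ¬ InS i (r (i + 1) N) := by
  obtain ⟨J, hJ, hmin, hD⟩ := DD_spec hr N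
  rcases J with _ | J
  · exact hJ i (Nat.zero_le i)
  · exfalso
    have hS : InS J (r (J + 1) N) := by
      by_contra hS
      have := hmin J (fun i hi => by
        rcases hi.eq_or_lt with rfl | hi
        · exact hS
        · exact hJ i hi)
      omega
    rw [hN] at hD
    have hS' : NN (J + 1) ≤ r (J + 1) N + 2 * LL J := hS
    unfold fz at hD
    by_cases h1 : NN (J + 1) ≤ r (J + 1) N + LL J
    · rw [if_pos h1] at hD; norm_num at hD
    · rw [if_neg h1, if_pos hS'] at hD; norm_num at hD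

lemma far_bad {r : ℕ → ℤ → ℕ} (hr : Cons r) (N : ℤ) (hN : DD (fun j => r j N) = 0) (j' i : ℕ)
    (hS : InS j' (r (j' + 1) (N - i))) (hb : ¬ (NN (j' + 1) ≤ r (j' + 1) (N - i) + LL j')) :
    LL j' < i := by
  by_contra hcon
  apply no_S hr N hN j'
  have h1 := r_add hr (j' + 1) (N - i) i
  rw [sub_add_cancel] at h1
  rw [h1, Nat.mod_eq_of_lt (by omega)]
  unfold InS at hS ⊢
  omega

lemma DD_ge {r : ℕ → ℤ → ℕ} (hr : Cons r) (N : ℤ) (hN : DD (fun j => r j N) = 0) (j i : ℕ)
    (hi : i ≤ LL j) : fz j (r j (N - i)) ≤ DD (fun j' => r j' (N - i)) := by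
  rcases DD_cases hr (N - i) j with h | ⟨j', hj, hS, h⟩ | ⟨j', hj, hS, h, hb⟩
  · rw [h]
  · rw [h]; exact fz_le _ _
  · exfalso
    have h1 := far_bad hr N hN j' i hS hb
    have h2 := LL_mono hj
    omega

/-! periodic sums -/

lemma per_sum (f : ℕ → ℤ) (P : ℕ) (ρ : ℕ) :
    ∑ t ∈ Finset.range P, f ((ρ + t) % P) = ∑ m ∈ Finset.range P, f m := by
  induction ρ with
  | zero =>
    refine Finset.sum_congr rfl fun t ht => ?_
    rw [zero_add, Nat.mod_eq_of_lt (Finset.mem_range.1 ht)]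
  | succ ρ ih =>
    rw [← ih]
    have h1 := Finset.sum_range_succ (fun t => f ((ρ + t) % P)) P
    rw [Finset.sum_range_succ'] at h1
    rw [add_zero, Nat.add_mod_right] at h1
    have h2 := add_right_cancel h1
    rw [← h2]
    refine Finset.sum_congr rfl fun t _ => ?_
    congr 2
    ring

lemma per_sum_mul (f : ℕ → ℤ) (P : ℕ) (ρ q : ℕ) :
    ∑ t ∈ Finset.range (q * P), f ((ρ + t) % P) = q * ∑ m ∈ Finset.range P, f m := by
  induction q with
  | zero => simp
  | succ q ih =>
    rw [Nat.succ_mul, Finset.sum_range_add, ih]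
    have h1 : ∑ x ∈ Finset.range P, f ((ρ + (q * P + x)) % P) = ∑ m ∈ Finset.range P, f m := by
      rw [← per_sum f P (ρ + q * P)]
      refine Finset.sum_congr rfl fun t _ => ?_
      rw [add_assoc]
    rw [h1]; push_cast; ring

lemma per_sum_ge (f : ℕ → ℤ) (hf : ∀ r, -3 ≤ f r) (P : ℕ) (ρ n : ℕ) :
    (n / P : ℕ) * ∑ m ∈ Finset.range P, f m - 3 * (n % P : ℕ) ≤
      ∑ t ∈ Finset.range n, f ((ρ + t) % P) := by
  have h0 : n = (n / P) * P + n % P := (Nat.div_add_mod' n P).symm
  conv_rhs => rw [h0, Finset.sum_range_add, per_sum_mul]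
  have h1 : -3 * ((n % P : ℕ) : ℤ) ≤
      ∑ x ∈ Finset.range (n % P), f ((ρ + ((n / P) * P + x)) % P) := by
    have := Finset.card_nsmul_le_sum (Finset.range (n % P))
      (fun x => f ((ρ + ((n / P) * P + x)) % P)) (-3) (fun x _ => hf _)
    rw [Finset.card_range, nsmul_eq_mul] at this
    linarith
  linarith

lemma F_sum (j : ℕ) : ((j : ℤ) + 2) * ∑ m ∈ Finset.range (NN j), fz j m = (j + 3) * NN j := by
  induction j with
  | zero =>
    have : NN 0 = 2 := rfl
    rw [this]
    simp [Finset.sum_range_succ, fz]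
  | succ j ih =>
    set q := 2 * 2 ^ cexp j * ((j + 2) * (j + 4)) with hq
    have hA : NN (j + 1) = q * NN j + (LL j + LL j) := by
      rw [NN_succ, hq]
      unfold LL
      ring
    have hNL := LL_pos j
    have h1 : ∑ m ∈ Finset.range (NN (j + 1)), fz (j + 1) m =
        q * ∑ m ∈ Finset.range (NN j), fz j m := by
      conv_lhs => rw [hA, Finset.sum_range_add, Finset.sum_range_add]
      have e1 : ∑ x ∈ Finset.range (q * NN j), fz (j + 1) x =
          q * ∑ m ∈ Finset.range (NN j), fz j m := by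
        rw [← per_sum_mul (fz j) (NN j) 0 q]
        refine Finset.sum_congr rfl fun t ht => ?_
        have ht' := Finset.mem_range.1 ht
        rw [zero_add, fz_notInS]
        unfold InS
        omega
      have e2 : ∑ x ∈ Finset.range (LL j), fz (j + 1) (q * NN j + x) = -3 * (LL j : ℤ) := by
        have : ∀ x ∈ Finset.range (LL j), fz (j + 1) (q * NN j + x) = -3 := by
          intro x hx
          have hx' := Finset.mem_range.1 hx
          unfold fz
          rw [if_neg (by omega), if_pos (by omega)]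
        rw [Finset.sum_congr rfl this, Finset.sum_const, Finset.card_range, nsmul_eq_mul]
        ring
      have e3 : ∑ x ∈ Finset.range (LL j), fz (j + 1) (q * NN j + (LL j + x)) = 3 * (LL j : ℤ) := by
        have : ∀ x ∈ Finset.range (LL j), fz (j + 1) (q * NN j + (LL j + x)) = 3 := by
          intro x hx
          have hx' := Finset.mem_range.1 hx
          unfold fz
          rw [if_pos (by omega)]
        rw [Finset.sum_congr rfl this, Finset.sum_const, Finset.card_range, nsmul_eq_mul]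
        ring
      rw [e1, e2, e3]; ring
    rw [h1]
    have hNN : (NN (j + 1) : ℤ) = 2 * ((j : ℤ) + 3) ^ 2 * (NN j * 2 ^ cexp j) := by
      rw [NN_succ]; unfold LL; push_cast; ring
    rw [hNN, hq]
    push_cast
    linear_combination (2 * 2 ^ cexp j * ((j:ℤ) + 4) * (j + 3)) * ih

lemma real_step (jr k a q P s F B : ℝ) (hj0 : 0 ≤ jr) (h9 : (jr + 2) * F = (jr + 3) * P)
    (hsum : k - a = q * P + s) (h14 : 0 ≤ s) (h13 : s ≤ P) (h6 : q * F - 3 * s ≤ B) :
    (jr + 3) / (jr + 2) * (k - a) - 5 * P ≤ B := by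
  have hj : (0:ℝ) < jr + 2 := by linarith
  have h10 : F = (jr + 3) / (jr + 2) * P := by
    field_simp
    linarith
  have h11 : (jr + 3) / (jr + 2) ≤ 3 / 2 := by
    rw [div_le_div_iff₀ hj (by norm_num)]
    linarith
  rw [hsum]
  rw [h10] at h6
  have h15 : (jr + 3) / (jr + 2) * s ≤ 3 / 2 * s := mul_le_mul_of_nonneg_right h11 h14
  have e : (jr + 3) / (jr + 2) * (q * P + s) =
      q * ((jr + 3) / (jr + 2) * P) + (jr + 3) / (jr + 2) * s := by ring
  rw [e]
  linarith

theorem partB1 (r : ℕ → ℤ → ℕ) (hr : Cons r) (N : ℤ) (hN : DD (fun j => r j N) = 0)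
    (j : ℕ) (a k : ℕ) (hak : a ≤ k) (hk : k ≤ LL j) :
    ((j : ℝ) + 3) / ((j : ℝ) + 2) * ((k : ℝ) - a) - 5 * (NN j : ℝ) ≤
      ∑ i ∈ Finset.Ioc a k, (DD (fun j' => r j' (N - i)) : ℝ) := by
  have h1 : ∑ i ∈ Finset.Ioc a k, fz j (r j (N - i)) ≤
      ∑ i ∈ Finset.Ioc a k, DD (fun j' => r j' (N - i)) :=
    Finset.sum_le_sum fun i hi => DD_ge hr N hN j i ((Finset.mem_Ioc.1 hi).2.trans hk)
  have h2 : ∑ i ∈ Finset.Ioc a k, fz j (r j (N - i)) =
      ∑ t ∈ Finset.range (k - a), fz j ((r j (N - k) + t) % NN j) := by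
    symm
    refine Finset.sum_bij' (fun t _ => k - t) (fun i _ => k - i) ?_ ?_ ?_ ?_ ?_
    · intro t ht
      have := Finset.mem_range.1 ht
      rw [Finset.mem_Ioc]; omega
    · intro i hi
      have := Finset.mem_Ioc.1 hi
      rw [Finset.mem_range]; omega
    · intro t ht
      have := Finset.mem_range.1 ht
      omega
    · intro i hi
      have := Finset.mem_Ioc.1 hi
      omega
    · intro t ht
      have ht' := Finset.mem_range.1 ht
      rw [← r_add hr]
      congr 2
      have : ((k - t : ℕ) : ℤ) = k - t := by omega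
      rw [this]; ring
  have h3 := per_sum_ge (fz j) (fz_ge j) (NN j) (r j (N - k)) (k - a)
  rw [← h2] at h3
  have h4 := h3.trans h1
  set F := ∑ m ∈ Finset.range (NN j), fz j m with hF
  have h5 := F_sum j
  rw [← hF] at h5
  have h6 : (((k - a) / NN j : ℕ) : ℝ) * (F : ℝ) - 3 * (((k - a) % NN j : ℕ) : ℝ) ≤
      ∑ i ∈ Finset.Ioc a k, (DD (fun j' => r j' (N - i)) : ℝ) := by
    have := (Int.cast_le (R := ℝ)).2 h4
    push_cast at this
    exact this
  have hP := NN_pos j
  have h7 : k - a = (k - a) / NN j * NN j + (k - a) % NN j := (Nat.div_add_mod' (k - a) (NN j)).symm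
  have hsl : (k - a) % NN j < NN j := Nat.mod_lt _ hP
  have h9 : ((j : ℝ) + 2) * F = (j + 3) * NN j := by exact_mod_cast h5
  refine real_step j k a (((k - a) / NN j : ℕ) : ℝ) (NN j) (((k - a) % NN j : ℕ) : ℝ) F _
    (Nat.cast_nonneg j) h9 ?_ (Nat.cast_nonneg _) (by exact_mod_cast hsl.le) h6
  rw [← Nat.cast_sub hak, ← Nat.cast_mul, ← Nat.cast_add, ← h7]

end Pool.H878.ERW
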