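import Pool.Agent.Helper878.ERW.Defs

set_option autoImplicit false

open MeasureTheory Filter Topology
open scoped BigOperators ENNReal

namespace Pool.H878.ERW




theorem cexp_castX (j : ℕ) : ((cexp j : ℕ) : ℝ) = 20 * ((j:ℝ) + 3) ^ 3 := by
  unfold cexp
  push_cast
  ring

theorem NN_zeroX : NN 0 = 2 := rfl

theorem NN_succX (j : ℕ) : NN (j + 1) = 2 * (j + 3) ^ 2 * LL j := rfl

theorem LL_eqX (j : ℕ) : LL j = NN j * 2 ^ (cexp j) := rfl

attribute [local irreducible] cexp NN LL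

theorem NN_posX : ∀ j, 1 ≤ NN j
  | 0 => by rw [NN_zeroX]; norm_num
  | (j + 1) => by
    have h := NN_posX j
    rw [NN_succX, LL_eqX]
    generalize NN j = a at h ⊢
    generalize cexp j = c
    have : 0 < 2 * (j + 3) ^ 2 * (a * 2 ^ c) := by positivity
    exact this

theorem LL_posX (j : ℕ) : 1 ≤ LL j := by
  have h1 := NN_posX j
  rw [LL_eqX]
  generalize NN j = a at h1 ⊢
  generalize cexp j = c
  have : 0 < a * 2 ^ c := by positivity
  exact this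

theorem NN_le_LLX (j : ℕ) : NN j ≤ LL j := by
  rw [LL_eqX]
  generalize cexp j = c
  exact Nat.le_mul_of_pos_right _ (by positivity)

/-- weights -/
noncomputable def lgX (k : ℕ) : ℝ := Real.log (((k : ℝ) + 1) / k)

theorem lgX_nonneg (k : ℕ) (hk : 1 ≤ k) : 0 ≤ lgX k := by
  have hk' : (0:ℝ) < k := by exact_mod_cast hk
  refine Real.log_nonneg ?_
  rw [le_div_iff₀ hk']
  linarith

theorem lgX_anti (k : ℕ) (hk : 1 ≤ k) : lgX (k + 1) ≤ lgX k := by
  have hk' : (0:ℝ) < k := by exact_mod_cast hk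
  unfold lgX
  push_cast
  refine Real.log_le_log (by positivity) ?_
  rw [div_le_div_iff₀ (by positivity) hk']
  nlinarith

theorem lgX_le (k : ℕ) (hk : 1 ≤ k) : lgX k ≤ 1 / k := by
  have hk' : (0:ℝ) < k := by exact_mod_cast hk
  unfold lgX
  have h := Real.log_le_sub_one_of_pos (show (0:ℝ) < ((k:ℝ) + 1) / k by positivity)
  have h2 : ((k:ℝ) + 1) / k - 1 = 1 / k := by
    field_simp
    ring
  linarith

theorem lgX_sum (a b : ℕ) (hab : a ≤ b) :
    ∑ k ∈ Finset.Ioc a b, lgX k = Real.log (((b : ℝ) + 1) / ((a : ℝ) + 1)) := by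
  induction b, hab using Nat.le_induction with
  | base => simp [div_self (show ((a:ℝ) + 1) ≠ 0 by positivity)]
  | succ b hab ih =>
    rw [Finset.sum_Ioc_succ_top hab, ih]
    unfold lgX
    rw [← Real.log_mul (by positivity) (by positivity)]
    congr 1
    push_cast
    field_simp

theorem abelX (x : ℕ → ℝ) (C : ℝ) (hC : 0 ≤ C) (a b : ℕ) (hab : a ≤ b)
    (h : ∀ k, a ≤ k → k ≤ b → -C ≤ ∑ i ∈ Finset.Ioc a k, x i) :
    -(C * lgX (a + 1)) ≤ ∑ k ∈ Finset.Ioc a b, x k * lgX k := by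
  rcases eq_or_lt_of_le hab with h0 | h0
  · subst h0
    have := mul_nonneg hC (lgX_nonneg (a + 1) (by omega))
    simp
    exact this
  · have key : ∀ b, a + 1 ≤ b → (∀ k, a ≤ k → k ≤ b → -C ≤ ∑ i ∈ Finset.Ioc a k, x i) →
        ((∑ i ∈ Finset.Ioc a b, x i) + C) * lgX b - C * lgX (a + 1) ≤
          ∑ k ∈ Finset.Ioc a b, x k * lgX k := by
      intro b hb
      induction b, hb using Nat.le_induction with
      | base =>
        intro _
        rw [Finset.sum_Ioc_succ_top (le_refl a), Finset.sum_Ioc_succ_top (le_refl a)]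
        simp
        linarith
      | succ b hb ih =>
        intro hh
        have ih' := ih (fun k h1 h2 => hh k h1 (by omega))
        rw [Finset.sum_Ioc_succ_top (by omega), Finset.sum_Ioc_succ_top (by omega)]
        have h1 : 0 ≤ (∑ i ∈ Finset.Ioc a b, x i) + C := by
          have := hh b (by omega) (by omega)
          linarith
        have h2 := lgX_anti b (by omega)
        have h3 := mul_le_mul_of_nonneg_left h2 h1
        linarith
    have hk := key b h0 h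
    have h1 : 0 ≤ (∑ i ∈ Finset.Ioc a b, x i) + C := by
      have := h b hab le_rfl
      linarith
    have h2 := mul_nonneg h1 (lgX_nonneg b (by omega))
    linarith

theorem pieceX (x : ℕ → ℝ) (C D : ℝ) (hC : 0 ≤ C) (a b : ℕ) (hab : a ≤ b)
    (h : ∀ k, a ≤ k → k ≤ b → D * ((k:ℝ) - a) - C ≤ ∑ i ∈ Finset.Ioc a k, x i) :
    D * Real.log (((b : ℝ) + 1) / ((a : ℝ) + 1)) - C * lgX (a + 1) ≤
      ∑ k ∈ Finset.Ioc a b, x k * lgX k := by
  have h1 := abelX (fun k => x k - D) C hC a b hab (by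
    intro k hk1 hk2
    have := h k hk1 hk2
    rw [Finset.sum_sub_distrib, Finset.sum_const, Nat.card_Ioc, nsmul_eq_mul, Nat.cast_sub hk1]
    linarith)
  have h2 : ∑ k ∈ Finset.Ioc a b, (x k - D) * lgX k =
      ∑ k ∈ Finset.Ioc a b, x k * lgX k - D * ∑ k ∈ Finset.Ioc a b, lgX k := by
    rw [Finset.mul_sum, ← Finset.sum_sub_distrib]
    refine Finset.sum_congr rfl ?_
    intro k _
    ring
  rw [h2, lgX_sum a b hab] at h1
  linarith

theorem facX (dv : ℤ) (hd : dv = 0 ∨ dv = 3 ∨ dv = -3) (k : ℕ) (hk : 1 ≤ k) :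
    (1 - 1 / ((k : ℝ) + 1)) ^ ca dv * (1 + 1 / ((k : ℝ) + 1)) ^ cb dv ≤
      Real.exp (-((dv : ℝ) * lgX k)) := by
  have hk' : (0:ℝ) < k := by exact_mod_cast hk
  have e1 : Real.exp (lgX k) = ((k:ℝ) + 1) / k := Real.exp_log (by positivity)
  rcases hd with h | h | h
  · subst h
    simp [ca, cb]
  · subst h
    have hca : ca 3 = 3 := by simp [ca]
    have hcb : cb 3 = 0 := by simp [cb]
    rw [hca, hcb]
    have e2 : -(((3:ℤ):ℝ) * lgX k) = ((3:ℕ):ℝ) * (-lgX k) := by push_cast; ring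
    rw [e2, Real.exp_nat_mul, Real.exp_neg, e1, pow_zero, mul_one]
    refine le_of_eq ?_
    congr 1
    field_simp
    ring
  · subst h
    have hca : ca (-3) = 1 := by
      unfold ca
      norm_num
    have hcb : cb (-3) = 4 := by
      unfold cb
      norm_num
    rw [hca, hcb]
    have e2 : -(((-3:ℤ):ℝ) * lgX k) = ((3:ℕ):ℝ) * (lgX k) := by push_cast; ring
    rw [e2, Real.exp_nat_mul, e1]
    have e3 : (1 - 1 / ((k : ℝ) + 1)) = (k:ℝ) / ((k:ℝ) + 1) := by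
      field_simp
      ring
    have e4 : (1 + 1 / ((k : ℝ) + 1)) = ((k:ℝ) + 2) / ((k:ℝ) + 1) := by
      field_simp
      ring
    rw [e3, e4, pow_one, div_pow, div_pow, div_mul_div_comm, div_le_div_iff₀ (by positivity) (by positivity)]
    have h1 : (k:ℝ) * (k + 2) ≤ (k + 1) ^ 2 := by nlinarith
    have h2 : ((k:ℝ) * (k + 2)) ^ 4 ≤ ((k + 1) ^ 2) ^ 4 := pow_le_pow_left₀ (by positivity) h1 4
    nlinarith

/-- break points -/
def AAX : ℕ → ℕ
  | 0 => 0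
  | (j + 1) => LL j

theorem AAX_NN (j : ℕ) : AAX j + 1 ≤ NN j := by
  cases j with
  | zero => rw [NN_zeroX]; simp [AAX]
  | succ j =>
    have h := LL_posX j
    have e2 : AAX (j + 1) = LL j := rfl
    rw [NN_succX, e2]
    generalize LL j = b at h ⊢
    have : 2 ≤ 2 * (j + 3) ^ 2 := by
      have : 1 ≤ (j + 3) ^ 2 := Nat.one_le_pow _ _ (by omega)
      omega
    calc b + 1 ≤ 2 * b := by omega
      _ ≤ 2 * (j + 3) ^ 2 * b := Nat.mul_le_mul_right _ this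

theorem NN_AAX (j : ℕ) : NN j ≤ 2 * (j + 2) ^ 2 * (AAX j + 1) := by
  cases j with
  | zero => rw [NN_zeroX]; simp [AAX]
  | succ j =>
    have e2 : AAX (j + 1) = LL j := rfl
    rw [NN_succX, e2]
    generalize LL j = b
    have e3 : j + 1 + 2 = j + 3 := by omega
    rw [e3]
    exact Nat.mul_le_mul_left _ (by omega)

theorem lossX (j : ℕ) : 5 * (NN j : ℝ) * lgX (AAX j + 1) ≤ 10 * ((j:ℝ) + 2) ^ 2 := by
  have h1 := lgX_le (AAX j + 1) (by omega)
  have h2 : (NN j : ℝ) ≤ 2 * ((j:ℝ) + 2) ^ 2 * ((AAX j : ℝ) + 1) := by exact_mod_cast NN_AAX j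
  have h3 : (0:ℝ) ≤ NN j := by positivity
  have h4 : 5 * (NN j : ℝ) * lgX (AAX j + 1) ≤ 5 * (NN j : ℝ) * (1 / ((AAX j + 1 : ℕ) : ℝ)) :=
    mul_le_mul_of_nonneg_left h1 (by positivity)
  refine h4.trans ?_
  push_cast
  rw [mul_one_div, div_le_iff₀ (by positivity)]
  linarith

theorem gainX (j : ℕ) : 13 * ((j:ℝ) + 3) ^ 3 ≤ Real.log (((LL j : ℝ) + 1) / ((AAX j : ℝ) + 1)) := by
  have h1 : (2:ℝ) ^ cexp j ≤ ((LL j : ℝ) + 1) / ((AAX j : ℝ) + 1) := by
    rw [le_div_iff₀ (by positivity)]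
    have h0 := AAX_NN j
    rw [LL_eqX]
    generalize AAX j = a at h0 ⊢
    generalize NN j = b at h0 ⊢
    generalize cexp j = c
    have h1 : ((a:ℝ) + 1) ≤ b := by exact_mod_cast h0
    have h2 : (0:ℝ) ≤ 2 ^ c := by positivity
    have h3 := mul_le_mul_of_nonneg_left h1 h2
    push_cast
    linarith
  have h2 := Real.log_le_log (by positivity) h1
  rw [Real.log_pow] at h2
  refine le_trans ?_ h2
  have h3 := Real.log_two_gt_d9
  rw [cexp_castX]
  have h4 : (0:ℝ) ≤ ((j:ℝ) + 3) ^ 3 := by positivity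
  nlinarith

theorem levelX (x : ℕ → ℝ) (j b : ℕ) (hab : AAX j ≤ b) (hb : b ≤ LL j)
    (hwin : ∀ (j a k : ℕ), a ≤ k → k ≤ LL j →
      ((j : ℝ) + 3) / ((j : ℝ) + 2) * ((k : ℝ) - a) - 5 * (NN j : ℝ) ≤ ∑ i ∈ Finset.Ioc a k, x i) :
    ((j : ℝ) + 3) / ((j : ℝ) + 2) * Real.log (((b : ℝ) + 1) / ((AAX j : ℝ) + 1)) - 10 * ((j:ℝ) + 2) ^ 2 ≤
      ∑ k ∈ Finset.Ioc (AAX j) b, x k * lgX k := by
  have h1 := pieceX x (5 * (NN j : ℝ)) (((j : ℝ) + 3) / ((j : ℝ) + 2)) (by positivity) (AAX j) b hab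
    (fun k hk1 hk2 => hwin j (AAX j) k hk1 (hk2.trans hb))
  have h2 := lossX j
  linarith

theorem level1X (j : ℕ) (L : ℝ) (hL : 0 ≤ L) : L ≤ ((j : ℝ) + 3) / ((j : ℝ) + 2) * L := by
  have h : (1:ℝ) ≤ ((j : ℝ) + 3) / ((j : ℝ) + 2) := by
    rw [le_div_iff₀ (by positivity)]
    linarith
  nlinarith

theorem level2X (j : ℕ) (L : ℝ) (hL : 13 * ((j:ℝ) + 3) ^ 3 ≤ L) :
    L + 13 * ((j:ℝ) + 3) ^ 2 ≤ ((j : ℝ) + 3) / ((j : ℝ) + 2) * L := by
  have hj : (0:ℝ) < (j:ℝ) + 2 := by positivity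
  have e : ((j : ℝ) + 3) / ((j : ℝ) + 2) * L = L + L / ((j:ℝ) + 2) := by
    field_simp
    ring
  rw [e]
  have h2 : 13 * ((j:ℝ) + 3) ^ 2 ≤ L / ((j:ℝ) + 2) := by
    rw [le_div_iff₀ hj]
    have : 13 * ((j:ℝ) + 3) ^ 2 * ((j:ℝ) + 2) ≤ 13 * ((j:ℝ) + 3) ^ 3 := by
      have h0 : (0:ℝ) ≤ ((j:ℝ) + 3) ^ 2 := by positivity
      nlinarith
    linarith
  linarith

theorem AAX_mono (j : ℕ) : AAX j ≤ LL j := by
  have h := AAX_NN j
  have h2 := NN_le_LLX j
  exact (Nat.le_succ _).trans (h.trans h2)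

theorem partialX (x : ℕ → ℝ)
    (hwin : ∀ (j a k : ℕ), a ≤ k → k ≤ LL j →
      ((j : ℝ) + 3) / ((j : ℝ) + 2) * ((k : ℝ) - a) - 5 * (NN j : ℝ) ≤ ∑ i ∈ Finset.Ioc a k, x i)
    (m : ℕ) :
    Real.log ((AAX m : ℝ) + 1) + ∑ j ∈ Finset.range m, (13 * ((j:ℝ) + 3) ^ 2 - 10 * ((j:ℝ) + 2) ^ 2) ≤
      ∑ k ∈ Finset.Ioc 0 (AAX m), x k * lgX k := by
  induction m with
  | zero => simp [AAX]
  | succ m ih =>
    have e : AAX (m + 1) = LL m := rfl
    rw [e, Finset.sum_range_succ]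
    have h1 := levelX x m (LL m) (AAX_mono m) le_rfl hwin
    have h2 := level2X m _ (gainX m)
    have h3 : Real.log (((LL m : ℝ) + 1) / ((AAX m : ℝ) + 1)) =
        Real.log ((LL m : ℝ) + 1) - Real.log ((AAX m : ℝ) + 1) :=
      Real.log_div (by positivity) (by positivity)
    have h4 := Finset.sum_Ioc_consecutive (fun k => x k * lgX k) (Nat.zero_le (AAX m)) (AAX_mono m)
    rw [← h4]
    rw [h3] at h2
    rw [h3] at h1
    linarith

theorem totalX (x : ℕ → ℝ)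
    (hwin : ∀ (j a k : ℕ), a ≤ k → k ≤ LL j →
      ((j : ℝ) + 3) / ((j : ℝ) + 2) * ((k : ℝ) - a) - 5 * (NN j : ℝ) ≤ ∑ i ∈ Finset.Ioc a k, x i)
    (M i : ℕ) (h1 : AAX i ≤ M) (h2 : M ≤ LL i) :
    Real.log ((M : ℝ) + 1) - 40 + 3 * ∑ j ∈ Finset.range i, ((j : ℝ) + 3) ^ 2 ≤
      ∑ k ∈ Finset.Ioc 0 M, x k * lgX k := by
  have h3 := partialX x hwin i
  have h4 := levelX x i M h1 h2 hwin
  have hL : 0 ≤ Real.log (((M : ℝ) + 1) / ((AAX i : ℝ) + 1)) := by
    refine Real.log_nonneg ?_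
    rw [le_div_iff₀ (by positivity)]
    have : (AAX i : ℝ) ≤ M := by exact_mod_cast h1
    linarith
  have h5 := level1X i _ hL
  have h6 : Real.log (((M : ℝ) + 1) / ((AAX i : ℝ) + 1)) =
      Real.log ((M : ℝ) + 1) - Real.log ((AAX i : ℝ) + 1) :=
    Real.log_div (by positivity) (by positivity)
  have h7 := Finset.sum_Ioc_consecutive (fun k => x k * lgX k) (Nat.zero_le (AAX i)) h1
  rw [← h7]
  have h8 : ∑ j ∈ Finset.range i, (13 * ((j:ℝ) + 3) ^ 2 - 10 * ((j:ℝ) + 2) ^ 2) - 10 * ((i:ℝ) + 2) ^ 2 =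
      -40 + 3 * ∑ j ∈ Finset.range i, ((j : ℝ) + 3) ^ 2 := by
    clear h3 h4 h5 h6 h7 hL h1 h2
    induction i with
    | zero => norm_num
    | succ i ih =>
      rw [Finset.sum_range_succ, Finset.sum_range_succ]
      push_cast
      push_cast at ih
      have : ∑ j ∈ Finset.range i, (13 * ((j:ℝ) + 3) ^ 2 - 10 * ((j:ℝ) + 2) ^ 2) =
        -40 + 3 * ∑ j ∈ Finset.range i, ((j : ℝ) + 3) ^ 2 + 10 * ((i:ℝ) + 2) ^ 2 := by linarith
      rw [this]
      ring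
  rw [h6] at h5
  rw [h6] at h4
  linarith

theorem prodX (d : ℤ → ℤ) (hd : ∀ x, d x = 0 ∨ d x = 3 ∨ d x = -3) (M : ℕ)
    (h0 : d ((M + 1 : ℕ) : ℤ) = 0) :
    PP (fun x => ca (d x)) (fun x => cb (d x)) (M + 1) ≤
      Real.exp (-∑ k ∈ Finset.Ioc 0 M, (d (((M + 1 : ℕ) : ℤ) - k) : ℝ) * lgX k) := by
  have e : ∑ k ∈ Finset.Ioc 0 M, (d (((M + 1 : ℕ) : ℤ) - k) : ℝ) * lgX k =
      ∑ y ∈ Finset.Icc 1 M, (d (y : ℤ) : ℝ) * lgX (M + 1 - y) := by
    refine Finset.sum_nbij' (fun k => M + 1 - k) (fun y => M + 1 - y) ?_ ?_ ?_ ?_ ?_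
    · intro k hk
      simp only [Finset.mem_Ioc, Finset.mem_Icc] at hk ⊢
      omega
    · intro k hk
      simp only [Finset.mem_Ioc, Finset.mem_Icc] at hk ⊢
      omega
    · intro k hk
      simp only [Finset.mem_Ioc] at hk
      omega
    · intro k hk
      simp only [Finset.mem_Icc] at hk
      omega
    · intro k hk
      simp only [Finset.mem_Ioc] at hk
      have e1 : (((M + 1 - k : ℕ)) : ℤ) = ((M + 1 : ℕ) : ℤ) - k := by
        rw [Nat.cast_sub (by omega)]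
      have e2 : M + 1 - (M + 1 - k) = k := by omega
      rw [e1, e2]
  rw [e]
  unfold PP
  rw [Finset.prod_Icc_succ_top (by omega)]
  simp only [h0]
  have h1 : (1 - 1 / (((M + 1 : ℕ) : ℝ) + 1 - ((M + 1 : ℕ) : ℝ))) ^ ca 0 *
      (1 + 1 / (((M + 1 : ℕ) : ℝ) + 1 - ((M + 1 : ℕ) : ℝ))) ^ cb 0 = 1 := by
    simp [ca, cb]
  rw [h1, mul_one, ← Finset.sum_neg_distrib, Real.exp_sum]
  refine Finset.prod_le_prod ?_ ?_
  · intro y hy
    simp only [Finset.mem_Icc] at hy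
    have hy' : (y:ℝ) ≤ M := by exact_mod_cast hy.2
    have h2 : 1 ≤ ((M + 1 : ℕ) : ℝ) + 1 - y := by
      push_cast
      linarith
    have h3 : 1 / (((M + 1 : ℕ) : ℝ) + 1 - y) ≤ 1 := by
      rw [div_le_one (by linarith)]
      exact h2
    have h4 : 0 ≤ 1 / (((M + 1 : ℕ) : ℝ) + 1 - y) := by positivity
    have h5 : 0 ≤ 1 - 1 / (((M + 1 : ℕ) : ℝ) + 1 - y) := by linarith
    positivity
  · intro y hy
    simp only [Finset.mem_Icc] at hy
    have h2 := facX (d y) (hd y) (M + 1 - y) (by omega)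
    have e1 : ((M + 1 - y : ℕ) : ℝ) + 1 = ((M + 1 : ℕ) : ℝ) + 1 - y := by
      rw [Nat.cast_sub (by omega)]
      ring
    rw [e1] at h2
    exact h2

/-- values of `DD` -/
theorem partB2 (d : ℤ → ℤ) (hd : ∀ x, d x = 0 ∨ d x = 3 ∨ d x = -3) (N : ℕ) (hN1 : 1 ≤ N)
    (hwin : d N = 0 → ∀ (j a k : ℕ), a ≤ k → k ≤ LL j →
      ((j : ℝ) + 3) / ((j : ℝ) + 2) * ((k : ℝ) - a) - 5 * (NN j : ℝ) ≤
        ∑ i ∈ Finset.Ioc a k, (d ((N : ℤ) - i) : ℝ))
    (i : ℕ) (hi : N - 1 ≤ LL i) (hi' : ∀ j, j < i → LL j < N - 1) :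
    PP (fun x => ca (d x)) (fun x => cb (d x)) N ≤
      Real.exp 40 / N * Real.exp (-(3 * ∑ j ∈ Finset.range i, ((j : ℝ) + 3) ^ 2)) := by
  obtain ⟨M, rfl⟩ : ∃ M, N = M + 1 := ⟨N - 1, by omega⟩
  by_cases h0 : d ((M + 1 : ℕ) : ℤ) = 0
  · have h1 := prodX d hd M h0
    refine h1.trans ?_
    have hM : M + 1 - 1 = M := by omega
    rw [hM] at hi
    have hA : AAX i ≤ M := by
      cases i with
      | zero => simp [AAX]
      | succ i =>
        have := hi' i (by omega)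
        rw [hM] at this
        exact this.le
    have h2 := totalX (fun k => (d (((M + 1 : ℕ) : ℤ) - k) : ℝ)) (hwin h0) M i hA hi
    have e : Real.exp 40 / ((M + 1 : ℕ) : ℝ) * Real.exp (-(3 * ∑ j ∈ Finset.range i, ((j : ℝ) + 3) ^ 2)) =
        Real.exp (-(Real.log ((M : ℝ) + 1) - 40 + 3 * ∑ j ∈ Finset.range i, ((j : ℝ) + 3) ^ 2)) := by
      have e2 : -(Real.log ((M : ℝ) + 1) - 40 + 3 * ∑ j ∈ Finset.range i, ((j : ℝ) + 3) ^ 2) =
        (40 - Real.log ((M : ℝ) + 1)) + (-(3 * ∑ j ∈ Finset.range i, ((j : ℝ) + 3) ^ 2)) := by ring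
      rw [e2, Real.exp_add, Real.exp_sub, Real.exp_log (by positivity)]
      push_cast
      rfl
    rw [e]
    exact Real.exp_le_exp.2 (by linarith)
  · have hz : PP (fun x => ca (d x)) (fun x => cb (d x)) (M + 1) = 0 := by
      unfold PP
      refine Finset.prod_eq_zero (i := M + 1) (by simp) ?_
      have hca : ca (d ((M + 1 : ℕ) : ℤ)) ≠ 0 := by
        rcases hd ((M + 1 : ℕ) : ℤ) with h | h | h
        · exact absurd h h0
        · rw [h]
          simp [ca]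
        · rw [h]
          unfold ca
          norm_num
      have e1 : (1 - 1 / (((M + 1 : ℕ) : ℝ) + 1 - ((M + 1 : ℕ) : ℝ))) = 0 := by
        have : (((M + 1 : ℕ) : ℝ) + 1 - ((M + 1 : ℕ) : ℝ)) = 1 := by ring
        rw [this]
        norm_num
      rw [e1, zero_pow hca, zero_mul]
    rw [hz]
    positivity

end Pool.H878.ERW
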