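import Pool.Agent.Helper878.ERW.Defs

set_option autoImplicit false

open MeasureTheory Filter Topology
open scoped BigOperators ENNReal

namespace Pool.H878.ERW




lemma LL_le_6867 (i : ℕ) : LL i ≤ 2 ^ (1000 * 16 ^ i) := by
  induction i with
  | zero =>
    have key : ∀ a b : ℕ, a + 1 ≤ b → 2 * 2 ^ a ≤ 2 ^ b := by
      intro a b hab
      calc 2 * 2 ^ a = 2 ^ (a + 1) := by rw [pow_succ, mul_comm]
        _ ≤ 2 ^ b := Nat.pow_le_pow_right (by norm_num) hab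
    simp only [LL, NN, cexp]
    exact key _ _ (by norm_num)
  | succ i ih =>
    have h1 : LL (i + 1) = 2 * (i + 3) ^ 2 * LL i * 2 ^ (20 * (i + 1 + 3) ^ 3) := rfl
    rw [h1]
    have h2 : ∀ k : ℕ, k + 3 ≤ 2 ^ (k + 2) := by
      intro k
      induction k with
      | zero => norm_num
      | succ k ihk =>
        rw [show k + 1 + 2 = (k + 2) + 1 by ring, pow_succ]
        omega
    have h3 : (i + 3) ^ 2 ≤ 2 ^ (2 * i + 4) := by
      calc (i + 3) ^ 2 ≤ (2 ^ (i + 2)) ^ 2 := Nat.pow_le_pow_left (h2 i) 2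
        _ = 2 ^ (2 * i + 4) := by rw [← pow_mul]; ring_nf
    have h4 : ∀ k : ℕ, k + 4 ≤ 4 * 2 ^ k := by
      intro k
      induction k with
      | zero => norm_num
      | succ k ihk => rw [pow_succ]; omega
    have h5 : (i + 1 + 3) ^ 3 ≤ 64 * 16 ^ i := by
      calc (i + 1 + 3) ^ 3 ≤ (4 * 2 ^ i) ^ 3 := Nat.pow_le_pow_left (h4 i) 3
        _ = 64 * 8 ^ i := by
          rw [mul_pow, ← pow_mul, mul_comm i 3, pow_mul]; norm_num
        _ ≤ 64 * 16 ^ i := Nat.mul_le_mul_left _ (Nat.pow_le_pow_left (by norm_num) i)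
    have h6 : 2 * i + 5 ≤ 8 * 16 ^ i := by
      have : i + 4 ≤ 4 * 16 ^ i := (h4 i).trans (Nat.mul_le_mul_left _ (Nat.pow_le_pow_left (by norm_num) i))
      omega
    have h7 : 1 + (2 * i + 4) + 1000 * 16 ^ i + 20 * (i + 1 + 3) ^ 3 ≤ 1000 * 16 ^ (i + 1) := by
      have aux : ∀ (e c : ℕ), 2 * i + 5 ≤ 8 * e → c ≤ 64 * e →
          1 + (2 * i + 4) + 1000 * e + 20 * c ≤ 1000 * (e * 16) := by
        intro e c h1 h2
        omega
      rw [pow_succ 16 i]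
      exact aux _ _ h6 h5
    calc 2 * (i + 3) ^ 2 * LL i * 2 ^ (20 * (i + 1 + 3) ^ 3)
        ≤ 2 * 2 ^ (2 * i + 4) * 2 ^ (1000 * 16 ^ i) * 2 ^ (20 * (i + 1 + 3) ^ 3) := by
          gcongr
      _ = 2 ^ (1 + (2 * i + 4) + 1000 * 16 ^ i + 20 * (i + 1 + 3) ^ 3) := by
          rw [pow_add 2 (1 + (2 * i + 4) + 1000 * 16 ^ i), pow_add 2 (1 + (2 * i + 4)),
            pow_add 2 1, pow_one]
      _ ≤ 2 ^ (1000 * 16 ^ (i + 1)) := Nat.pow_le_pow_right (by norm_num) h7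

lemma sq16_6867 (i : ℕ) : ((1002 : ℝ) * 16 ^ i) ^ 2 = 1002 ^ 2 * 256 ^ i := by
  rw [mul_pow, ← pow_mul, mul_comm i 2, pow_mul]; norm_num

lemma exp256_6867 (i : ℕ) :
    Real.exp (-(3 * ∑ j ∈ Finset.range i, ((j : ℝ) + 3) ^ 2)) * 256 ^ i ≤ 1 := by
  have h1 : (27 : ℝ) * i ≤ 3 * ∑ j ∈ Finset.range i, ((j : ℝ) + 3) ^ 2 := by
    have : ∑ j ∈ Finset.range i, (9 : ℝ) ≤ ∑ j ∈ Finset.range i, ((j : ℝ) + 3) ^ 2 := by
      apply Finset.sum_le_sum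
      intro j _
      have : (0 : ℝ) ≤ j := by positivity
      nlinarith
    rw [Finset.sum_const, Finset.card_range, nsmul_eq_mul] at this
    linarith
  have h2 : Real.exp (-(3 * ∑ j ∈ Finset.range i, ((j : ℝ) + 3) ^ 2)) ≤ Real.exp (-(27 * i)) :=
    Real.exp_le_exp.mpr (by linarith)
  have h3 : (256 : ℝ) ≤ Real.exp 27 := by
    have h4 : (2 : ℝ) ≤ Real.exp 1 := by
      have := Real.add_one_le_exp (1 : ℝ)
      linarith
    calc (256 : ℝ) ≤ 2 ^ 27 := by norm_num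
      _ ≤ (Real.exp 1) ^ 27 := pow_le_pow_left₀ (by norm_num) h4 27
      _ = Real.exp 27 := by rw [← Real.exp_nat_mul]; norm_num
  have h5 : (256 : ℝ) ^ i ≤ Real.exp (27 * i) := by
    calc (256 : ℝ) ^ i ≤ (Real.exp 27) ^ i := pow_le_pow_left₀ (by norm_num) h3 i
      _ = Real.exp (27 * i) := by rw [← Real.exp_nat_mul]; ring_nf
  calc Real.exp (-(3 * ∑ j ∈ Finset.range i, ((j : ℝ) + 3) ^ 2)) * 256 ^ i
      ≤ Real.exp (-(27 * i)) * Real.exp (27 * i) := by gcongr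
    _ = 1 := by rw [← Real.exp_add]; simp

lemma final_6867 (i : ℕ) (x y : ℝ) (hy : 0 < y) (hx : 0 < x) (hx1 : x ≤ 1002 * 16 ^ i) :
    Real.exp 40 / y * Real.exp (-(3 * ∑ j ∈ Finset.range i, ((j : ℝ) + 3) ^ 2)) ≤
      (Real.exp 40 * 1002 ^ 2) / (y * x ^ 2) := by
  have hexp := exp256_6867 i
  have hsq : x ^ 2 ≤ 1002 ^ 2 * 256 ^ i := by
    rw [← sq16_6867]
    exact pow_le_pow_left₀ hx.le hx1 2
  rw [le_div_iff₀ (by positivity)]
  have hw0 := Real.exp_pos (-(3 * ∑ j ∈ Finset.range i, ((j : ℝ) + 3) ^ 2))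
  calc Real.exp 40 / y * Real.exp (-(3 * ∑ j ∈ Finset.range i, ((j : ℝ) + 3) ^ 2)) *
        (y * x ^ 2)
      = Real.exp 40 * (Real.exp (-(3 * ∑ j ∈ Finset.range i, ((j : ℝ) + 3) ^ 2)) *
        x ^ 2) := by
        field_simp
    _ ≤ Real.exp 40 * (Real.exp (-(3 * ∑ j ∈ Finset.range i, ((j : ℝ) + 3) ^ 2)) *
        (1002 ^ 2 * 256 ^ i)) := by gcongr
    _ = Real.exp 40 * 1002 ^ 2 * (Real.exp (-(3 * ∑ j ∈ Finset.range i, ((j : ℝ) + 3) ^ 2)) *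
        256 ^ i) := by ring
    _ ≤ Real.exp 40 * 1002 ^ 2 * 1 := by gcongr
    _ = Real.exp 40 * 1002 ^ 2 := by ring

lemma log_6867 (N i : ℕ) (hN : 1 ≤ N) (hNi : N - 1 ≤ LL i) :
    (Nat.log 2 N : ℝ) + 1 ≤ 1002 * 16 ^ i := by
  have hlog : Nat.log 2 N ≤ 1000 * 16 ^ i + 1 := by
    have h1 : N ≤ 2 ^ (1000 * 16 ^ i + 1) := by
      have h2 := LL_le_6867 i
      have h3 : 1 ≤ 2 ^ (1000 * 16 ^ i) := Nat.one_le_two_pow
      rw [pow_succ]
      omega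
    calc Nat.log 2 N ≤ Nat.log 2 (2 ^ (1000 * 16 ^ i + 1)) := Nat.log_mono_right h1
      _ = 1000 * 16 ^ i + 1 := Nat.log_pow (by norm_num) _
  have h1 : (Nat.log 2 N : ℝ) ≤ 1000 * 16 ^ i + 1 := by exact_mod_cast hlog
  have h2 : (1 : ℝ) ≤ 16 ^ i := one_le_pow₀ (by norm_num)
  linarith

lemma summ_6867 : Summable (fun N : ℕ => (Real.exp 40 * 1002 ^ 2) /
    ((N : ℝ) * ((Nat.log 2 N : ℝ) + 1) ^ 2)) := by
  rw [← summable_condensed_iff_of_nonneg]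
  · have h1 : (fun k : ℕ => (2 : ℝ) ^ k * ((Real.exp 40 * 1002 ^ 2) /
        (((2 ^ k : ℕ) : ℝ) * ((Nat.log 2 (2 ^ k) : ℝ) + 1) ^ 2))) =
        fun k : ℕ => (Real.exp 40 * 1002 ^ 2) * (1 / (((k + 1 : ℕ) : ℝ)) ^ 2) := by
      ext k
      rw [Nat.log_pow (by norm_num)]
      push_cast
      have : (2 : ℝ) ^ k ≠ 0 := by positivity
      field_simp
    rw [h1]
    apply Summable.mul_left
    exact (summable_nat_add_iff 1).mpr (Real.summable_one_div_nat_pow.mpr (by norm_num))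
  · intro n; positivity
  · intro m n hm hmn
    have hm' : (0 : ℝ) < m := by exact_mod_cast hm
    have hmn' : (m : ℝ) ≤ n := by exact_mod_cast hmn
    have hl : (Nat.log 2 m : ℝ) ≤ Nat.log 2 n := by exact_mod_cast Nat.log_mono_right hmn
    have h0 : (0 : ℝ) ≤ Nat.log 2 m := by positivity
    apply div_le_div_of_nonneg_left (by positivity) (by positivity)
    gcongr

theorem partB3 : ∃ p : ℕ → ℝ, Summable p ∧ (∀ N, 0 ≤ p N) ∧
    ∀ (N i : ℕ), 1 ≤ N → N - 1 ≤ LL i → (∀ j, j < i → LL j < N - 1) →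
      Real.exp 40 / N * Real.exp (-(3 * ∑ j ∈ Finset.range i, ((j : ℝ) + 3) ^ 2)) ≤ p N := by
  refine ⟨fun N => (Real.exp 40 * 1002 ^ 2) / (N * ((Nat.log 2 N : ℝ) + 1) ^ 2), summ_6867, ?_, ?_⟩
  · intro N; positivity
  · intro N i hN hNi _
    have hN' : (0 : ℝ) < (N : ℝ) := Nat.cast_pos.mpr hN
    have h1 : (0 : ℝ) < (Nat.log 2 N : ℝ) + 1 := Nat.cast_add_one_pos _
    have h2 := log_6867 N i hN hNi
    clear hNi
    exact final_6867 i ((Nat.log 2 N : ℝ) + 1) (N : ℝ) hN' h1 h2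

end Pool.H878.ERW
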