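import Pool.Agent.Helper878.ERW.Defs

set_option autoImplicit false

open MeasureTheory Filter Topology
open scoped BigOperators ENNReal

namespace Pool.H878.ERW



theorem NN_two (j : ℕ) : 2 ≤ NN j := by
  induction j with
  | zero => exact le_rfl
  | succ j ih =>
    have h1 : 1 ≤ (j + 3) ^ 2 := Nat.one_le_pow _ _ (by omega)
    have h2 : 1 ≤ NN j * 2 ^ (cexp j) :=
      Nat.one_le_iff_ne_zero.2 (Nat.mul_ne_zero (by omega) (by positivity))
    show 2 ≤ 2 * (j + 3) ^ 2 * (NN j * 2 ^ (cexp j))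
    calc 2 = 2 * 1 * 1 := by norm_num
      _ ≤ 2 * (j + 3) ^ 2 * (NN j * 2 ^ (cexp j)) :=
        Nat.mul_le_mul (Nat.mul_le_mul le_rfl h1) h2

theorem NN_dvd (j : ℕ) : NN j ∣ NN (j + 1) := by
  show NN j ∣ 2 * (j + 3) ^ 2 * (NN j * 2 ^ (cexp j))
  exact Dvd.dvd.mul_left (Dvd.intro _ rfl) _

section odo

variable (K : ℕ → ℕ)

/-- the ambient group -/
abbrev BG : Type := (j : ℕ) → ZMod (K j)

/-- the odometer -/
abbrev OG : AddSubgroup (BG K) := (AddSubgroup.zmultiples (1 : BG K)).topologicalClosure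

instance instCompBG [∀ j, NeZero (K j)] : CompactSpace (BG K) := by
  have : ∀ j, CompactSpace (ZMod (K j)) := fun j => Finite.compactSpace
  exact Pi.compactSpace

instance instCompOG [∀ j, NeZero (K j)] : CompactSpace (OG K) :=
  isCompact_iff_compactSpace.1 (AddSubgroup.isClosed_topologicalClosure _).isCompact

instance instMeasOG : MeasurableSpace (OG K) := borel (OG K)

instance instBorelOG : BorelSpace (OG K) := ⟨rfl⟩

instance instSCOG [∀ j, NeZero (K j)] : SecondCountableTopology (OG K) := by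
  have h1 : SecondCountableTopology (BG K) := inferInstance
  exact TopologicalSpace.Subtype.secondCountableTopology _

instance instTAG : IsTopologicalAddGroup (OG K) := inferInstance

/-- Haar measure -/
noncomputable def OM [∀ j, NeZero (K j)] : Measure (OG K) := Measure.addHaarMeasure ⊤

instance instHaarOM [∀ j, NeZero (K j)] : Measure.IsAddHaarMeasure (OM K) := by
  unfold OM
  infer_instance

instance instProbOM [∀ j, NeZero (K j)] : IsProbabilityMeasure (OM K) := by
  refine ⟨?_⟩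
  have := Measure.addHaarMeasure_self (K₀ := (⊤ : TopologicalSpace.PositiveCompacts (OG K)))
  simpa [OM] using this

/-- the generator -/
def og : OG K := ⟨1, AddSubgroup.le_topologicalClosure _ (AddSubgroup.mem_zmultiples _)⟩

theorem og_dense : DenseRange (fun n : ℤ => n • og K) := by
  intro x
  rw [closure_subtype]
  have h1 : ((↑) '' (Set.range (fun n : ℤ => n • og K)) : Set (BG K)) =
      (AddSubgroup.zmultiples (1 : BG K) : Set (BG K)) := by
    ext y
    constructor
    · rintro ⟨z, ⟨n, rfl⟩, rfl⟩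
      exact ⟨n, rfl⟩
    · rintro ⟨n, rfl⟩
      exact ⟨n • og K, ⟨n, rfl⟩, rfl⟩
  rw [h1]
  exact x.2

theorem og_ergodic [∀ j, NeZero (K j)] : Ergodic (fun x : OG K => og K + x) (OM K) :=
  ergodic_add_left_of_denseRange_zsmul (og_dense K) (OM K)

/-- residues -/
def rr (w : OG K) (j : ℕ) (x : ℤ) : ℕ := ((w.1 j + (x : ZMod (K j))).val)

theorem rr_cont (j : ℕ) (x : ℤ) : Continuous (fun w : OG K => rr K w j x) := by
  unfold rr
  have h1 : Continuous (fun a : ZMod (K j) => (a + (x : ZMod (K j))).val) :=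
    continuous_of_discreteTopology
  exact h1.comp ((continuous_apply j).comp continuous_subtype_val)

theorem rr_meas (j : ℕ) (x : ℤ) : Measurable (fun w : OG K => rr K w j x) :=
  (rr_cont K j x).measurable

theorem rr_T (w : OG K) (j : ℕ) (x : ℤ) : rr K (og K + w) j x = rr K w j (x + 1) := by
  unfold rr
  congr 1
  have : (og K + w).1 j = 1 + w.1 j := rfl
  rw [this]
  push_cast
  ring

theorem rr_lt [∀ j, NeZero (K j)] (w : OG K) (j : ℕ) (x : ℤ) : rr K w j x < K j :=
  ZMod.val_lt _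

theorem rr_succ [∀ j, NeZero (K j)] (h2 : ∀ j, 2 ≤ K j) (w : OG K) (j : ℕ) (x : ℤ) :
    rr K w j (x + 1) = (rr K w j x + 1) % K j := by
  unfold rr
  have h1 : w.1 j + ((x + 1 : ℤ) : ZMod (K j)) = (w.1 j + (x : ZMod (K j))) + 1 := by
    push_cast
    ring
  have h2 := h2 j
  rw [h1, ZMod.val_add, ZMod.val_one'' (by omega)]

theorem og_compat (hd : ∀ j, K j ∣ K (j + 1)) (w : BG K) (hw : w ∈ OG K) (j : ℕ) :
    ZMod.castHom (hd j) (ZMod (K j)) (w (j + 1)) = w j := by
  have hcl : IsClosed {w : BG K | ZMod.castHom (hd j) (ZMod (K j)) (w (j + 1)) = w j} := by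
    apply isClosed_eq
    · have h1 : Continuous (fun a : ZMod (K (j + 1)) =>
          ZMod.castHom (hd j) (ZMod (K j)) a) := continuous_of_discreteTopology
      exact h1.comp (continuous_apply (j + 1))
    · exact continuous_apply j
  have hsub : (AddSubgroup.zmultiples (1 : BG K) : Set (BG K)) ⊆
      {w : BG K | ZMod.castHom (hd j) (ZMod (K j)) (w (j + 1)) = w j} := by
    rintro _ ⟨n, rfl⟩
    show ZMod.castHom (hd j) (ZMod (K j)) ((n • (1 : BG K)) (j + 1)) = (n • (1 : BG K)) j
    simp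
  exact closure_minimal hsub hcl hw

theorem rr_compat (hd : ∀ j, K j ∣ K (j + 1)) [∀ j, NeZero (K j)] (w : OG K) (j : ℕ) (x : ℤ) :
    rr K w j x = rr K w (j + 1) x % K j := by
  unfold rr
  have h1 := og_compat K hd w.1 w.2 j
  have h2 : w.1 j + (x : ZMod (K j)) =
      ZMod.castHom (hd j) (ZMod (K j)) (w.1 (j + 1) + (x : ZMod (K (j + 1)))) := by
    rw [map_add, h1, map_intCast]
  rw [h2, ZMod.castHom_apply, ZMod.cast_eq_val, ZMod.val_natCast]

theorem rr_unif [∀ j, NeZero (K j)] (h2 : ∀ j, 2 ≤ K j) (j m : ℕ) (hm : m < K j) :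
    OM K {w | rr K w j 0 = m} = (K j : ℝ≥0∞)⁻¹ := by
  have hmeas : ∀ m, MeasurableSet {w : OG K | rr K w j 0 = m} := fun m =>
    rr_meas K j 0 (measurableSet_singleton m)
  have hstep : ∀ k, k + 1 < K j →
      OM K {w | rr K w j 0 = k + 1} = OM K {w | rr K w j 0 = k} := by
    intro k hk
    rw [← (og_ergodic K).toMeasurePreserving.measure_preimage (hmeas (k + 1)).nullMeasurableSet]
    congr 1
    ext w
    show rr K (og K + w) j 0 = k + 1 ↔ rr K w j 0 = k
    rw [rr_T, rr_succ K h2]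
    have h1 := rr_lt K w j 0
    constructor
    · intro h
      rcases Nat.lt_or_ge (rr K w j 0 + 1) (K j) with h2 | h2
      · rw [Nat.mod_eq_of_lt h2] at h
        omega
      · have h3 : rr K w j 0 + 1 = K j := by omega
        rw [h3, Nat.mod_self] at h
        omega
    · intro h
      rw [h, Nat.mod_eq_of_lt hk]
  have hall : ∀ k, k < K j → OM K {w | rr K w j 0 = k} = OM K {w | rr K w j 0 = 0} := by
    intro k
    induction k with
    | zero => intro _; rfl
    | succ k ih =>
      intro hk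
      rw [hstep k hk]
      exact ih (by omega)
  have hsum : ∑ k ∈ Finset.range (K j), OM K {w | rr K w j 0 = k} = 1 := by
    rw [← measure_biUnion_finset]
    · have : (⋃ k ∈ Finset.range (K j), {w : OG K | rr K w j 0 = k}) = Set.univ := by
        ext w
        simp only [Set.mem_iUnion, Set.mem_univ, iff_true]
        exact ⟨rr K w j 0, Finset.mem_range.2 (rr_lt K w j 0), rfl⟩
      rw [this, measure_univ]
    · intro a _ b _ hab
      refine Set.disjoint_left.2 ?_
      intro w hw1 hw2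
      have e1 : rr K w j 0 = a := hw1
      have e2 : rr K w j 0 = b := hw2
      exact hab (e1.symm.trans e2)
    · intro k _
      exact hmeas k
  rw [Finset.sum_congr rfl (fun k hk => hall k (Finset.mem_range.1 hk)), Finset.sum_const,
    Finset.card_range, nsmul_eq_mul] at hsum
  rw [hall m hm]
  exact (ENNReal.eq_inv_of_mul_eq_one_left (by rw [mul_comm]; exact hsum))

theorem partC_gen (h2 : ∀ j, 2 ≤ K j) (hd : ∀ j, K j ∣ K (j + 1)) :
    ∃ (Ω : Type) (_ : MeasurableSpace Ω) (μ : Measure Ω) (_ : IsProbabilityMeasure μ)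
    (T : Ω → Ω) (r : Ω → ℕ → ℤ → ℕ), Ergodic T μ ∧
    (∀ j x, Measurable fun w => r w j x) ∧
    (∀ w j x, r (T w) j x = r w j (x + 1)) ∧
    (∀ w j x, r w j x < K j) ∧
    (∀ w j x, r w j (x + 1) = (r w j x + 1) % K j) ∧
    (∀ w j x, r w j x = r w (j + 1) x % K j) ∧
    (∀ j m, m < K j → μ {w | r w j 0 = m} = (K j : ℝ≥0∞)⁻¹) := by
  have hne : ∀ j, NeZero (K j) := fun j => ⟨by have := h2 j; omega⟩
  refine ⟨OG K, inferInstance, OM K, inferInstance, fun x => og K + x, rr K, og_ergodic K,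
    rr_meas K, rr_T K, rr_lt K, rr_succ K h2, rr_compat K hd, rr_unif K h2⟩

end odo

theorem partC : ∃ (Ω : Type) (_ : MeasurableSpace Ω) (μ : Measure Ω) (_ : IsProbabilityMeasure μ)
    (T : Ω → Ω) (r : Ω → ℕ → ℤ → ℕ), Ergodic T μ ∧
    (∀ j x, Measurable fun w => r w j x) ∧
    (∀ w j x, r (T w) j x = r w j (x + 1)) ∧
    (∀ w j x, r w j x < NN j) ∧
    (∀ w j x, r w j (x + 1) = (r w j x + 1) % NN j) ∧
    (∀ w j x, r w j x = r w (j + 1) x % NN j) ∧
    (∀ j m, m < NN j → μ {w | r w j 0 = m} = (NN j : ℝ≥0∞)⁻¹) := by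
  exact partC_gen NN NN_two NN_dvd

end Pool.H878.ERW
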