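import Pool.Agent.Helper878.ERW.Defs

set_option autoImplicit false

open MeasureTheory Filter Topology
open scoped BigOperators ENNReal

namespace Pool.H878.ERW

namespace PD

theorem NN_pos (j : ℕ) : 0 < NN j := by
  induction j with
  | zero => simp [NN]
  | succ j ih => simp only [NN]; positivity

theorem LL_pos (j : ℕ) : 0 < LL j := by
  have := NN_pos j
  unfold LL; positivity

theorem NN_succ (j : ℕ) : NN (j + 1) = 2 * (j + 3) ^ 2 * LL j := rfl

theorem DD_measurable : Measurable (fun s : ℕ → ℕ => DD s) := by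
  classical
  set M : ℕ → Set (ℕ → ℕ) := fun J => {s | ∀ j, J ≤ j → ¬ InS j (s (j + 1))} with hM
  have hMm : ∀ J, MeasurableSet (M J) := by
    intro J
    have : M J = ⋂ j ∈ {j : ℕ | J ≤ j}, {s : ℕ → ℕ | ¬ InS j (s (j + 1))} := by
      ext s; simp [hM]
    rw [this]
    refine MeasurableSet.biInter (Set.to_countable _) ?_
    intro j _
    have hd : MeasurableSet {m : ℕ | ¬ InS j m} := MeasurableSet.of_discrete
    have hp : Measurable (fun s : ℕ → ℕ => s (j + 1)) := measurable_pi_apply (j + 1)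
    exact hp hd
  refine measurable_to_countable' ?_
  intro d
  have : (fun s : ℕ → ℕ => DD s) ⁻¹' {d} =
      (⋃ J, (M J ∩ (⋂ i ∈ {i : ℕ | i < J}, (M i)ᶜ) ∩ {s | fz J (s J) = d})) ∪
      ((⋂ J, (M J)ᶜ) ∩ {s | (3 : ℤ) = d}) := by
    ext s
    simp only [Set.mem_preimage, Set.mem_singleton_iff, Set.mem_union, Set.mem_iUnion,
      Set.mem_inter_iff, Set.mem_iInter, Set.mem_compl_iff, Set.mem_ofPred_eq]
    by_cases h : ∃ J, ∀ j, J ≤ j → ¬ InS j (s (j + 1))
    · have hD : DD s = fz (Nat.find h) (s (Nat.find h)) := by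
        unfold DD; rw [dif_pos h]
      rw [hD]
      constructor
      · intro hd
        left
        exact ⟨Nat.find h, ⟨Nat.find_spec h, fun i hi => Nat.find_min h hi⟩, hd⟩
      · rintro (⟨J, ⟨hJ, hmin⟩, hd⟩ | ⟨hn, _⟩)
        · have : Nat.find h = J := by
            rw [Nat.find_eq_iff]
            exact ⟨hJ, fun i hi => hmin i hi⟩
          rw [this]; exact hd
        · exact absurd (Nat.find_spec h) (hn _)
    · have hD : DD s = 3 := by unfold DD; rw [dif_neg h]
      rw [hD]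
      constructor
      · intro hd
        right
        exact ⟨fun J hJ => h ⟨J, hJ⟩, hd⟩
      · rintro (⟨J, ⟨hJ, _⟩, _⟩ | ⟨_, hd⟩)
        · exact absurd ⟨J, hJ⟩ h
        · exact hd
  rw [this]
  have hA : ∀ J, MeasurableSet {s : ℕ → ℕ | fz J (s J) = d} := by
    intro J
    have hd : MeasurableSet {m : ℕ | fz J m = d} := MeasurableSet.of_discrete
    have hp : Measurable (fun s : ℕ → ℕ => s J) := measurable_pi_apply J
    exact hp hd
  refine MeasurableSet.union (MeasurableSet.iUnion fun J => ?_) ?_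
  · refine ((hMm J).inter ?_).inter (hA J)
    exact MeasurableSet.biInter (Set.to_countable _) (fun i _ => (hMm i).compl)
  · exact (MeasurableSet.iInter fun J => (hMm J).compl).inter (MeasurableSet.const _)

/-- sum of `fz j` over a period -/
def FF (j : ℕ) : ℤ := ∑ m ∈ Finset.range (NN j), fz j m

theorem FF_zero : FF 0 = 3 := by
  simp [FF, NN, Finset.sum_range_succ, fz]

theorem sum_mod (f : ℕ → ℤ) (N K : ℕ) :
    ∑ m ∈ Finset.range (K * N), f (m % N) = K * ∑ m ∈ Finset.range N, f m := by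
  induction K with
  | zero => simp
  | succ K ih =>
    rw [Nat.succ_mul, Finset.sum_range_add, ih]
    have : ∑ x ∈ Finset.range N, f ((K * N + x) % N) = ∑ m ∈ Finset.range N, f m := by
      refine Finset.sum_congr rfl fun x hx => ?_
      rw [Nat.add_comm, Nat.add_mul_mod_self_right, Nat.mod_eq_of_lt (Finset.mem_range.1 hx)]
    rw [this]; push_cast; ring

theorem sum_split (f g : ℕ → ℤ) (K N L : ℕ) (h1 : ∀ x, x < K * N → f x = g (x % N))
    (h2 : ∀ x, x < L → f (K * N + x) = -3) (h3 : ∀ x, x < L → f (K * N + L + x) = 3) :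
    ∑ m ∈ Finset.range (K * N + L + L), f m = K * ∑ m ∈ Finset.range N, g m := by
  rw [Finset.sum_range_add, Finset.sum_range_add, ← sum_mod]
  rw [Finset.sum_congr rfl (fun x hx => h1 x (Finset.mem_range.1 hx)),
    Finset.sum_congr rfl (fun x hx => h2 x (Finset.mem_range.1 hx)),
    Finset.sum_congr rfl (fun x hx => h3 x (Finset.mem_range.1 hx))]
  rw [Finset.sum_const, Finset.sum_const, Finset.card_range, nsmul_eq_mul, nsmul_eq_mul]
  ring

theorem two_le_sq (j : ℕ) : 2 ≤ 2 * (j + 3) ^ 2 := by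
  have : 1 ≤ (j + 3) ^ 2 := Nat.one_le_pow _ _ (by omega)
  omega

theorem FF_succ (j : ℕ) : FF (j + 1) = ((2 * ((j : ℤ) + 3) ^ 2 - 2) * 2 ^ cexp j) * FF j := by
  have h1 : NN (j + 1) = ((2 * (j + 3) ^ 2 - 2) * 2 ^ cexp j) * NN j + LL j + LL j := by
    rw [NN_succ]
    obtain ⟨q, hq⟩ := Nat.exists_eq_add_of_le (two_le_sq j)
    rw [hq]
    simp only [Nat.add_sub_cancel_left]
    unfold LL; ring
  have hKz : (((2 * (j + 3) ^ 2 - 2) * 2 ^ cexp j : ℕ) : ℤ) =
      (2 * ((j : ℤ) + 3) ^ 2 - 2) * 2 ^ cexp j := by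
    push_cast [Nat.cast_sub (two_le_sq j)]; ring
  rw [← hKz]
  generalize (2 * (j + 3) ^ 2 - 2) * 2 ^ cexp j = K at *
  unfold FF
  conv_lhs => rw [h1]
  refine sum_split _ _ K (NN j) (LL j) ?_ ?_ ?_
  · intro x hx
    simp only [fz]
    rw [if_neg (by omega), if_neg (by omega)]
  · intro x hx
    simp only [fz]
    rw [if_neg (by omega), if_pos (by omega)]
  · intro x hx
    simp only [fz]
    rw [if_pos (by omega)]

theorem NN_real (j : ℕ) : (NN (j + 1) : ℝ) = 2 * ((j : ℝ) + 3) ^ 2 * (NN j * 2 ^ cexp j) := by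
  rw [NN_succ]; unfold LL; push_cast; ring

theorem alg1 (t N E : ℝ) (ht : 0 ≤ t) :
    (2 * (t + 3) ^ 2 - 2) * E * (N * ((t + 3) / (t + 2))) =
      2 * (t + 3) ^ 2 * (N * E) * ((t + 1 + 3) / (t + 1 + 2)) := by
  have h2 : t + 2 ≠ 0 := by positivity
  have h4 : t + 1 + 2 ≠ 0 := by positivity
  field_simp
  ring

theorem alg2 (t L : ℝ) (ht : 0 ≤ t) (hL : 0 < L) :
    2 * L * (2 * (t + 3) ^ 2 * L)⁻¹ = 1 / (t + 3) ^ 2 := by
  have h3 : t + 3 ≠ 0 := by positivity
  field_simp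

theorem FF_eq (j : ℕ) : ((FF j : ℤ) : ℝ) = NN j * (((j : ℝ) + 3) / (j + 2)) := by
  induction j with
  | zero => rw [FF_zero]; norm_num [NN]
  | succ j ih =>
    rw [FF_succ, Int.cast_mul, ih, NN_real, Nat.cast_add, Nat.cast_one]
    rw [← alg1 (j : ℝ) (NN j : ℝ) (2 ^ cexp j) (Nat.cast_nonneg j)]
    congr 1
    rw [Int.cast_mul, Int.cast_pow]
    push_cast
    ring

theorem fz_abs (j m : ℕ) : |fz j m| ≤ 3 := by
  induction j generalizing m with
  | zero => simp only [fz]; split_ifs <;> simp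
  | succ j ih =>
    simp only [fz]
    split_ifs
    · simp
    · simp
    · exact ih _


section

variable {Ω : Type} [MeasurableSpace Ω] (μ : Measure Ω) [IsProbabilityMeasure μ]
    (T : Ω → Ω) (r : Ω → ℕ → ℤ → ℕ)

omit [IsProbabilityMeasure μ] in
theorem inv_x (hT : MeasurePreserving T μ μ)
    (hm : ∀ j x, Measurable fun w => r w j x)
    (hs : ∀ w j x, r (T w) j x = r w j (x + 1)) (j m : ℕ) (x : ℤ) :
    μ {w | r w j x = m} = μ {w | r w j 0 = m} := by
  have hstep : ∀ x : ℤ, μ {w | r w j (x + 1) = m} = μ {w | r w j x = m} := by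
    intro x
    have h1 : {w | r w j (x + 1) = m} = T ⁻¹' {w | r w j x = m} := by
      ext w
      show r w j (x + 1) = m ↔ r (T w) j x = m
      rw [hs]
    rw [h1]
    have hmeas : MeasurableSet {w | r w j x = m} := by
      have hd : MeasurableSet ({m} : Set ℕ) := MeasurableSet.of_discrete
      exact (hm j x) hd
    exact hT.measure_preimage hmeas.nullMeasurableSet
  induction x using Int.induction_on with
  | zero => rfl
  | succ i ih => rw [hstep, ih]
  | pred i ih =>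
    rw [← ih, ← hstep (-(i : ℤ) - 1)]
    congr 3
    ext w
    rw [show (-(i : ℤ) - 1 + 1) = -(i : ℤ) by ring]

omit [IsProbabilityMeasure μ] in
theorem meas_S (hT : MeasurePreserving T μ μ)
    (hm : ∀ j x, Measurable fun w => r w j x)
    (hs : ∀ w j x, r (T w) j x = r w j (x + 1))
    (hlt : ∀ w j x, r w j x < NN j)
    (hu : ∀ j m, m < NN j → μ {w | r w j 0 = m} = (NN j : ℝ≥0∞)⁻¹) (j : ℕ) (x : ℤ) :
    μ {w | InS j (r w (j + 1) x)} = ENNReal.ofReal (1 / ((j : ℝ) + 3) ^ 2) := by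
  have hL := LL_pos j
  have hle : 2 * LL j ≤ NN (j + 1) := by
    rw [NN_succ]
    nlinarith [two_le_sq j]
  have h1 : {w | InS j (r w (j + 1) x)} =
      ⋃ m ∈ Finset.Ico (NN (j + 1) - 2 * LL j) (NN (j + 1)), {w | r w (j + 1) x = m} := by
    ext w
    simp only [Set.mem_iUnion, Finset.mem_Ico, exists_prop]
    constructor
    · intro h
      have h' : NN (j + 1) ≤ r w (j + 1) x + 2 * LL j := h
      exact ⟨r w (j + 1) x, ⟨by omega, hlt w (j + 1) x⟩, rfl⟩
    · rintro ⟨m, ⟨h2, h3⟩, h4⟩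
      have h4' : r w (j + 1) x = m := h4
      show NN (j + 1) ≤ r w (j + 1) x + 2 * LL j
      omega
  have hmeas : ∀ m : ℕ, MeasurableSet {w | r w (j + 1) x = m} := by
    intro m
    have hd : MeasurableSet ({m} : Set ℕ) := MeasurableSet.of_discrete
    exact (hm (j + 1) x) hd
  rw [h1, measure_biUnion_finset]
  · have : ∀ m ∈ Finset.Ico (NN (j + 1) - 2 * LL j) (NN (j + 1)),
        μ {w | r w (j + 1) x = m} = (NN (j + 1) : ℝ≥0∞)⁻¹ := by
      intro m hmm
      rw [inv_x μ T r hT hm hs, hu _ _ (Finset.mem_Ico.1 hmm).2]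
    rw [Finset.sum_congr rfl this, Finset.sum_const, Nat.card_Ico, nsmul_eq_mul]
    have hc : NN (j + 1) - (NN (j + 1) - 2 * LL j) = 2 * LL j := by omega
    rw [hc]
    have hN : (0 : ℝ) < NN (j + 1) := by exact_mod_cast NN_pos (j + 1)
    have hL' : (0 : ℝ) < LL j := by exact_mod_cast hL
    have e3 : (NN (j + 1) : ℝ) = 2 * ((j : ℝ) + 3) ^ 2 * (LL j : ℝ) := by
      rw [NN_succ]; push_cast; ring
    have hreal : (2 * (LL j : ℝ)) * (NN (j + 1) : ℝ)⁻¹ = 1 / ((j : ℝ) + 3) ^ 2 := by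
      rw [e3]
      exact alg2 (j : ℝ) (LL j : ℝ) (Nat.cast_nonneg j) hL'
    rw [← hreal, ENNReal.ofReal_mul (by positivity), ENNReal.ofReal_mul (by norm_num),
      ENNReal.ofReal_inv_of_pos hN, ENNReal.ofReal_natCast, ENNReal.ofReal_natCast,
      Nat.cast_mul, Nat.cast_ofNat, ENNReal.ofReal_ofNat]
  · intro m _ m' _ hne
    rw [Function.onFun, Set.disjoint_left]
    intro w hw hw'
    have a1 : r w (j + 1) x = m := hw
    have a2 : r w (j + 1) x = m' := hw'
    exact hne (a1.symm.trans a2)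
  · intro m _
    exact hmeas m

theorem sum_bd (n : ℕ) : ∑ j ∈ Finset.range n, (1 / ((j : ℝ) + 3) ^ 2) ≤ 4 / 9 := by
  have key : ∀ n : ℕ, ∑ j ∈ Finset.range (n + 1), (1 / ((j : ℝ) + 3) ^ 2) ≤
      4 / 9 - 1 / ((n : ℝ) + 3) := by
    intro n
    induction n with
    | zero => norm_num
    | succ n ih =>
      rw [Finset.sum_range_succ]
      have h : 1 / (((n + 1 : ℕ) : ℝ) + 3) ^ 2 ≤ 1 / ((n : ℝ) + 3) - 1 / (((n + 1 : ℕ) : ℝ) + 3) := by
        push_cast
        have h1 : (0 : ℝ) < (n : ℝ) + 3 := by positivity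
        have h2 : (0 : ℝ) < (n : ℝ) + 1 + 3 := by positivity
        rw [div_sub_div _ _ h1.ne' h2.ne', div_le_div_iff₀ (by positivity) (by positivity)]
        nlinarith
      linarith
  cases n with
  | zero => norm_num
  | succ n =>
    refine (key n).trans ?_
    have : (0 : ℝ) ≤ 1 / ((n : ℝ) + 3) := by positivity
    linarith

theorem summ : Summable (fun j : ℕ => 1 / ((j : ℝ) + 3) ^ 2) :=
  summable_of_sum_range_le (fun j => by positivity) sum_bd

theorem tsum_S (hT : MeasurePreserving T μ μ)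
    (hm : ∀ j x, Measurable fun w => r w j x)
    (hs : ∀ w j x, r (T w) j x = r w j (x + 1))
    (hlt : ∀ w j x, r w j x < NN j)
    (hu : ∀ j m, m < NN j → μ {w | r w j 0 = m} = (NN j : ℝ≥0∞)⁻¹) (x : ℤ) :
    ∑' j, μ {w | InS j (r w (j + 1) x)} ≤ ENNReal.ofReal (4 / 9) := by
  rw [tsum_congr (fun j => meas_S μ T r hT hm hs hlt hu j x),
    ← ENNReal.ofReal_tsum_of_nonneg (fun j => by positivity) summ]
  exact ENNReal.ofReal_le_ofReal (summ.tsum_le_of_sum_range_le sum_bd)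

omit [MeasurableSpace Ω] in
theorem fz_step (w : Ω)
    (hc : ∀ w j x, r w j x = r w (j + 1) x % NN j) (j : ℕ) (h : ¬ InS j (r w (j + 1) 0)) :
    fz (j + 1) (r w (j + 1) 0) = fz j (r w j 0) := by
  have h' : ¬ (NN (j + 1) ≤ r w (j + 1) 0 + 2 * LL j) := h
  simp only [fz]
  rw [if_neg (by omega), if_neg h', ← hc]

omit [MeasurableSpace Ω] in
theorem DD_eq (w : Ω)
    (hc : ∀ w j x, r w j x = r w (j + 1) x % NN j) (J : ℕ)
    (h : ∀ j, J ≤ j → ¬ InS j (r w (j + 1) 0)) :
    DD (fun j => r w j 0) = fz J (r w J 0) := by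
  classical
  have hex : ∃ J, ∀ j, J ≤ j → ¬ InS j ((fun j => r w j 0) (j + 1)) := ⟨J, h⟩
  unfold DD
  rw [dif_pos hex]
  have hfin : Nat.find hex ≤ J := Nat.find_min' hex h
  have hspec := Nat.find_spec hex
  obtain ⟨d, hd⟩ := Nat.exists_eq_add_of_le hfin
  have key : ∀ d, fz (Nat.find hex + d) (r w (Nat.find hex + d) 0) =
      fz (Nat.find hex) (r w (Nat.find hex) 0) := by
    intro d
    induction d with
    | zero => rfl
    | succ d ih =>
      rw [← ih]
      exact fz_step r w hc (Nat.find hex + d) (hspec (Nat.find hex + d) (Nat.le_add_right _ _))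
  have := key d
  rw [← hd] at this
  exact this.symm

theorem int_fz (hm : ∀ j x, Measurable fun w => r w j x)
    (hlt : ∀ w j x, r w j x < NN j)
    (hu : ∀ j m, m < NN j → μ {w | r w j 0 = m} = (NN j : ℝ≥0∞)⁻¹) (j : ℕ) :
    ∫ w, ((fz j (r w j 0) : ℤ) : ℝ) ∂μ = ((j : ℝ) + 3) / (j + 2) := by
  have hmeas : ∀ m : ℕ, MeasurableSet {w | r w j 0 = m} := by
    intro m
    have hd : MeasurableSet ({m} : Set ℕ) := MeasurableSet.of_discrete
    exact (hm j 0) hd
  have h1 : (fun w => ((fz j (r w j 0) : ℤ) : ℝ)) = fun w =>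
      ∑ m ∈ Finset.range (NN j), Set.indicator {w | r w j 0 = m} (fun _ => ((fz j m : ℤ) : ℝ)) w := by
    funext w
    rw [Finset.sum_eq_single (r w j 0)]
    · rw [Set.indicator_of_mem]
      rfl
    · intro b _ hb
      rw [Set.indicator_of_notMem]
      intro h
      exact hb (Eq.symm h)
    · intro h
      exact absurd (Finset.mem_range.2 (hlt w j 0)) h
  rw [h1, integral_finsetSum]
  · have : ∀ m ∈ Finset.range (NN j),
        ∫ w, Set.indicator {w | r w j 0 = m} (fun _ => ((fz j m : ℤ) : ℝ)) w ∂μ =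
          (NN j : ℝ)⁻¹ * ((fz j m : ℤ) : ℝ) := by
      intro m hmm
      rw [integral_indicator_const _ (hmeas m)]
      rw [Measure.real, hu j m (Finset.mem_range.1 hmm)]
      rw [ENNReal.toReal_inv, ENNReal.toReal_natCast, smul_eq_mul]
    rw [Finset.sum_congr rfl this, ← Finset.mul_sum]
    have hF := FF_eq j
    unfold FF at hF
    rw [Int.cast_sum] at hF
    rw [hF]
    have hN : (NN j : ℝ) ≠ 0 := by exact_mod_cast (NN_pos j).ne'
    field_simp
  · intro m _
    exact (integrable_const _).indicator (hmeas m)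

end

theorem partD {Ω : Type} [MeasurableSpace Ω] (μ : Measure Ω) [IsProbabilityMeasure μ]
    (T : Ω → Ω) (r : Ω → ℕ → ℤ → ℕ) (hT : MeasurePreserving T μ μ)
    (hm : ∀ j x, Measurable fun w => r w j x)
    (hs : ∀ w j x, r (T w) j x = r w j (x + 1))
    (hlt : ∀ w j x, r w j x < NN j)
    (hsucc : ∀ w j x, r w j (x + 1) = (r w j x + 1) % NN j)
    (hc : ∀ w j x, r w j x = r w (j + 1) x % NN j)
    (hu : ∀ j m, m < NN j → μ {w | r w j 0 = m} = (NN j : ℝ≥0∞)⁻¹) :
    (∀ᵐ w ∂μ, Cons (r w)) ∧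
    (∫ w, (DD (fun j => r w j 0) : ℝ) ∂μ = 1) ∧
    0 < μ {w | DD (fun j => r w j 0) = 0} := by
  have hbc : ∀ x : ℤ, ∀ᵐ w ∂μ, ∀ᶠ j in atTop, w ∉ {w | InS j (r w (j + 1) x)} := by
    intro x
    refine ae_eventually_notMem ?_
    exact ne_top_of_le_ne_top ENNReal.ofReal_ne_top (tsum_S μ T r hT hm hs hlt hu x)
  have hfin : ∀ᵐ w ∂μ, ∀ x : ℤ, ∃ J, ∀ j, J ≤ j → ¬ InS j (r w (j + 1) x) := by
    rw [ae_all_iff]
    intro x
    filter_upwards [hbc x] with w hw
    exact eventually_atTop.1 hw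
  refine ⟨?_, ?_, ?_⟩
  · filter_upwards [hfin] with w hw
    exact ⟨hlt w, hsucc w, hc w, hw⟩
  · have hlim : Tendsto (fun j : ℕ => ∫ w, ((fz j (r w j 0) : ℤ) : ℝ) ∂μ) atTop
        (𝓝 (∫ w, (DD (fun j => r w j 0) : ℝ) ∂μ)) := by
      refine tendsto_integral_of_dominated_convergence (fun _ => (3 : ℝ)) ?_ (integrable_const _) ?_ ?_
      · intro j
        have h1 : Measurable (fun w => ((fz j (r w j 0) : ℤ) : ℝ)) := by
          have hf : Measurable (fun m : ℕ => ((fz j m : ℤ) : ℝ)) := measurable_of_countable _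
          exact hf.comp (hm j 0)
        exact h1.aestronglyMeasurable
      · intro j
        refine Filter.Eventually.of_forall fun w => ?_
        rw [Real.norm_eq_abs]
        have := fz_abs j (r w j 0)
        have h2 : ((|fz j (r w j 0)| : ℤ) : ℝ) ≤ ((3 : ℤ) : ℝ) := by exact_mod_cast this
        rw [Int.cast_abs] at h2
        simpa using h2
      · filter_upwards [hfin] with w hw
        obtain ⟨J, hJ⟩ := hw 0
        refine tendsto_const_nhds.congr' ?_
        filter_upwards [eventually_ge_atTop J] with j hj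
        rw [DD_eq r w hc j (fun i hi => hJ i (hj.trans hi))]
    have hlim2 : Tendsto (fun j : ℕ => ∫ w, ((fz j (r w j 0) : ℤ) : ℝ) ∂μ) atTop (𝓝 1) := by
      have h1 : (fun j : ℕ => ∫ w, ((fz j (r w j 0) : ℤ) : ℝ) ∂μ) =
          fun j : ℕ => 1 + 1 / ((j : ℝ) + 2) := by
        funext j
        rw [int_fz μ r hm hlt hu j]
        have : (j : ℝ) + 2 ≠ 0 := by positivity
        field_simp
        ring
      rw [h1]
      have h2 : Tendsto (fun j : ℕ => 1 / ((j : ℝ) + 2)) atTop (𝓝 0) := by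
        have := (tendsto_const_div_atTop_nhds_zero_nat (1 : ℝ)).comp (tendsto_add_atTop_nat 2)
        refine this.congr fun j => ?_
        simp
      simpa using h2.const_add 1
    exact tendsto_nhds_unique hlim hlim2
  · have hsub : {w | r w 0 0 = 0} \ (⋃ j, {w | InS j (r w (j + 1) 0)}) ⊆
        {w | DD (fun j => r w j 0) = 0} := by
      rintro w ⟨hw1, hw2⟩
      have hw1' : r w 0 0 = 0 := hw1
      have hw3 : ∀ j, 0 ≤ j → ¬ InS j (r w (j + 1) 0) := by
        intro j _ hj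
        exact hw2 (Set.mem_iUnion.2 ⟨j, hj⟩)
      show DD (fun j => r w j 0) = 0
      rw [DD_eq r w hc 0 hw3, hw1']
      simp [fz]
    refine lt_of_lt_of_le ?_ (measure_mono hsub)
    have h1 : μ {w | r w 0 0 = 0} = ENNReal.ofReal (1 / 2) := by
      rw [hu 0 0 (by simp [NN])]
      rw [show NN 0 = 2 from rfl]
      rw [one_div, ENNReal.ofReal_inv_of_pos (by norm_num)]
      simp
    have h2 : μ (⋃ j, {w | InS j (r w (j + 1) 0)}) ≤ ENNReal.ofReal (4 / 9) :=
      (measure_iUnion_le _).trans (tsum_S μ T r hT hm hs hlt hu 0)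
    have h3 : μ {w | r w 0 0 = 0} - μ (⋃ j, {w | InS j (r w (j + 1) 0)}) ≤
        μ ({w | r w 0 0 = 0} \ (⋃ j, {w | InS j (r w (j + 1) 0)})) := le_measure_sdiff
    refine lt_of_lt_of_le ?_ h3
    rw [h1]
    refine tsub_pos_of_lt (lt_of_le_of_lt h2 ?_)
    rw [ENNReal.ofReal_lt_ofReal_iff (by norm_num)]
    norm_num

end PD

theorem DD_measurable : Measurable (fun s : ℕ → ℕ => DD s) := PD.DD_measurable

theorem partD {Ω : Type} [MeasurableSpace Ω] (μ : Measure Ω) [IsProbabilityMeasure μ]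
    (T : Ω → Ω) (r : Ω → ℕ → ℤ → ℕ) (hT : MeasurePreserving T μ μ)
    (hm : ∀ j x, Measurable fun w => r w j x)
    (hs : ∀ w j x, r (T w) j x = r w j (x + 1))
    (hlt : ∀ w j x, r w j x < NN j)
    (hsucc : ∀ w j x, r w j (x + 1) = (r w j x + 1) % NN j)
    (hc : ∀ w j x, r w j x = r w (j + 1) x % NN j)
    (hu : ∀ j m, m < NN j → μ {w | r w j 0 = m} = (NN j : ℝ≥0∞)⁻¹) :
    (∀ᵐ w ∂μ, Cons (r w)) ∧
    (∫ w, (DD (fun j => r w j 0) : ℝ) ∂μ = 1) ∧
    0 < μ {w | DD (fun j => r w j 0) = 0} :=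
  PD.partD μ T r hT hm hs hlt hsucc hc hu

end Pool.H878.ERW
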