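import Pool.Agent.Helper878.ERW.Defs

set_option autoImplicit false

open MeasureTheory Filter Topology
open scoped BigOperators ENNReal

namespace Pool.H878.ERW



/-- the state (position, numbers of previous departures) of the walk driven by `u` -/
noncomputable def e1st (w : ℤ → ℕ → ℝ) (u : ℤ × ℕ → ℝ) : ℕ → ℤ × (ℤ → ℕ)
  | 0 => (0, fun _ => 0)
  | (n + 1) =>
    (if u ((e1st w u n).1, (e1st w u n).2 (e1st w u n).1 + 1) <
        w (e1st w u n).1 ((e1st w u n).2 (e1st w u n).1 + 1)
      then (e1st w u n).1 + 1 else (e1st w u n).1 - 1,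
     Function.update (e1st w u n).2 (e1st w u n).1 ((e1st w u n).2 (e1st w u n).1 + 1))

theorem e1st_snd (w : ℤ → ℕ → ℝ) (u : ℤ × ℕ → ℝ) (n : ℕ) (y : ℤ) :
    (e1st w u n).2 y = ((Finset.range n).filter (fun m => (e1st w u m).1 = y)).card := by
  induction n with
  | zero => simp [e1st]
  | succ n ih =>
    rw [Finset.range_add_one, Finset.filter_insert]
    by_cases h : (e1st w u n).1 = y
    · rw [if_pos h, Finset.card_insert_of_notMem (by simp), ← ih]
      show Function.update (e1st w u n).2 (e1st w u n).1 ((e1st w u n).2 (e1st w u n).1 + 1) y = _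
      rw [h, Function.update_self]
    · rw [if_neg h, ← ih]
      show Function.update (e1st w u n).2 (e1st w u n).1 ((e1st w u n).2 (e1st w u n).1 + 1) y = _
      rw [Function.update_of_ne (Ne.symm h)]

theorem e1visits (w : ℤ → ℕ → ℝ) (u : ℤ × ℕ → ℝ) (n : ℕ) :
    (e1st w u n).2 (e1st w u n).1 + 1 = visits (fun m => (e1st w u m).1) n := by
  rw [e1st_snd]
  unfold visits
  rw [Finset.range_add_one, Finset.filter_insert, if_pos rfl,
    Finset.card_insert_of_notMem (by simp)]

theorem e1step (w : ℤ → ℕ → ℝ) (u : ℤ × ℕ → ℝ) (n : ℕ) :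
    (e1st w u (n + 1)).1 =
      if u ((e1st w u n).1, visits (fun m => (e1st w u m).1) n) <
        w (e1st w u n).1 (visits (fun m => (e1st w u m).1) n)
      then (e1st w u n).1 + 1 else (e1st w u n).1 - 1 := by
  rw [← e1visits]
  rfl

theorem e1visits_congr {p q : ℕ → ℤ} {n : ℕ} (h : ∀ j ≤ n, p j = q j) :
    visits p n = visits q n := by
  unfold visits
  congr 1
  apply Finset.filter_congr
  intro m hm
  rw [Finset.mem_range] at hm
  rw [h m (by omega), h n le_rfl]

/-- the good set of uniforms at time `j` -/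
def e1B (w : ℤ → ℕ → ℝ) (p : ℕ → ℤ) (j : ℕ) : Set ℝ :=
  {t | (t < w (p j) (visits p j) ∧ p (j + 1) = p j + 1) ∨
    (¬ (t < w (p j) (visits p j)) ∧ p (j + 1) = p j - 1)}

theorem e1event (w : ℤ → ℕ → ℝ) (u : ℤ × ℕ → ℝ) (p : ℕ → ℤ) (n : ℕ) :
    (∀ j ≤ n, (e1st w u j).1 = p j) ↔
      (p 0 = 0 ∧ ∀ j < n, u (p j, visits p j) ∈ e1B w p j) := by
  induction n with
  | zero =>
    constructor
    · intro h
      exact ⟨(h 0 le_rfl).symm, fun j hj => absurd hj (Nat.not_lt_zero j)⟩
    · rintro ⟨h, -⟩ j hj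
      obtain rfl : j = 0 := by omega
      exact h.symm
  | succ n ih =>
    have h1 : (∀ j ≤ n + 1, (e1st w u j).1 = p j) ↔
        ((∀ j ≤ n, (e1st w u j).1 = p j) ∧ (e1st w u (n + 1)).1 = p (n + 1)) := by
      constructor
      · intro h
        exact ⟨fun j hj => h j (by omega), h (n + 1) le_rfl⟩
      · rintro ⟨h, h'⟩ j hj
        rcases Nat.lt_or_ge j (n + 1) with h2 | h2
        · exact h j (by omega)
        · obtain rfl : j = n + 1 := by omega
          exact h'
    have h2 : (∀ j < n + 1, u (p j, visits p j) ∈ e1B w p j) ↔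
        ((∀ j < n, u (p j, visits p j) ∈ e1B w p j) ∧ u (p n, visits p n) ∈ e1B w p n) := by
      constructor
      · intro h
        exact ⟨fun j hj => h j (by omega), h n (by omega)⟩
      · rintro ⟨h, h'⟩ j hj
        rcases Nat.lt_or_ge j n with h2 | h2
        · exact h j h2
        · obtain rfl : j = n := by omega
          exact h'
    rw [h1, h2, ← and_assoc, ← ih]
    refine and_congr_right fun h => ?_
    rw [e1step, e1visits_congr (p := fun m => (e1st w u m).1) h, h n le_rfl]
    unfold e1B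
    rw [Set.mem_setOf_eq]
    by_cases h3 : u (p n, visits p n) < w (p n) (visits p n)
    · simp only [h3, if_true, true_and, not_true_eq_false, false_and, or_false]
      exact eq_comm
    · simp only [h3, if_false, false_and, not_false_eq_true, true_and, false_or]
      exact eq_comm

theorem e1inj (p : ℕ → ℤ) : Function.Injective (fun j => (p j, visits p j)) := by
  have key : ∀ i j, i < j → p i = p j → visits p i < visits p j := by
    intro i j hij hp
    unfold visits
    apply Finset.card_lt_card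
    rw [Finset.ssubset_iff_of_subset]
    · refine ⟨j, by simp, ?_⟩
      simp only [Finset.mem_filter, Finset.mem_range, not_and]
      intro h; omega
    · intro m hm
      simp only [Finset.mem_filter, Finset.mem_range] at hm ⊢
      exact ⟨by omega, by rw [hm.2, hp]⟩
  intro i j h
  simp only [Prod.mk.injEq] at h
  rcases lt_trichotomy i j with h1 | h1 | h1
  · exact absurd h.2 (key i j h1 h.1).ne
  · exact h1
  · exact absurd h.2.symm (key j i h1 h.1.symm).ne

/-- uniform measure on the unit interval -/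
noncomputable def e1U : Measure ℝ := volume.restrict (Set.Icc (0 : ℝ) 1)

instance : IsProbabilityMeasure e1U := ⟨by
  unfold e1U
  rw [Measure.restrict_apply_univ, Real.volume_Icc]
  simp⟩

theorem e1B_meas (w : ℤ → ℕ → ℝ) (p : ℕ → ℤ) (j : ℕ) : MeasurableSet (e1B w p j) := by
  have e : e1B w p j = (Set.Iio (w (p j) (visits p j)) ∩ {_t : ℝ | p (j + 1) = p j + 1}) ∪
      (Set.Ici (w (p j) (visits p j)) ∩ {_t : ℝ | p (j + 1) = p j - 1}) := by
    unfold e1B
    ext t
    constructor
    · rintro (⟨h, h'⟩ | ⟨h, h'⟩)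
      · exact Or.inl ⟨h, h'⟩
      · exact Or.inr ⟨not_lt.mp h, h'⟩
    · rintro (⟨h, h'⟩ | ⟨h, h'⟩)
      · exact Or.inl ⟨h, h'⟩
      · exact Or.inr ⟨not_lt.mpr h, h'⟩
  rw [e]
  exact (measurableSet_Iio.inter (MeasurableSet.const _)).union
    (measurableSet_Ici.inter (MeasurableSet.const _))

theorem e1B_prob {w : ℤ → ℕ → ℝ} (hw : ∀ x i, w x i ∈ Set.Icc (0 : ℝ) 1) (p : ℕ → ℤ) (j : ℕ) :
    e1U (e1B w p j) = ENNReal.ofReal (stepProb w p j) := by
  obtain ⟨w0, w1⟩ := hw (p j) (visits p j)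
  unfold e1U
  rw [Measure.restrict_apply (e1B_meas w p j)]
  unfold stepProb
  by_cases h1 : p (j + 1) = p j + 1
  · have h2 : ¬ p (j + 1) = p j - 1 := by omega
    have e : e1B w p j ∩ Set.Icc 0 1 = Set.Ico 0 (w (p j) (visits p j)) := by
      unfold e1B
      ext t
      simp only [h1, h2, and_true, Set.mem_inter_iff, Set.mem_setOf_eq, Set.mem_Icc, Set.mem_Ico]
      constructor
      · rintro ⟨h | h, h3, h4⟩
        · exact ⟨h3, h⟩
        · omega
      · rintro ⟨h3, h4⟩
        exact ⟨Or.inl h4, h3, by linarith⟩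
    rw [if_pos h1, e, Real.volume_Ico, sub_zero]
  · by_cases h2 : p (j + 1) = p j - 1
    · have e : e1B w p j ∩ Set.Icc 0 1 = Set.Icc (w (p j) (visits p j)) 1 := by
        unfold e1B
        ext t
        simp only [h2, and_true, Set.mem_inter_iff, Set.mem_setOf_eq, Set.mem_Icc, not_lt]
        constructor
        · rintro ⟨h | h, h3, h4⟩
          · omega
          · exact ⟨h, h4⟩
        · rintro ⟨h3, h4⟩
          exact ⟨Or.inr h3, by linarith, h4⟩
      rw [if_neg h1, if_pos h2, e, Real.volume_Icc]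
    · have e : e1B w p j ∩ Set.Icc 0 1 = ∅ := by
        unfold e1B
        ext t
        simp [h1, h2]
      rw [if_neg h1, if_neg h2, e]
      simp

/-- the product measure -/
noncomputable def e1nu : Measure (ℤ × ℕ → ℝ) := Measure.infinitePi (fun _ : ℤ × ℕ => e1U)

instance : IsProbabilityMeasure e1nu := by
  unfold e1nu; infer_instance

theorem e1inner {w : ℤ → ℕ → ℝ} (hw : ∀ x i, w x i ∈ Set.Icc (0 : ℝ) 1) (p : ℕ → ℤ) (n : ℕ) :
    e1nu {u | ∀ j < n, u (p j, visits p j) ∈ e1B w p j} =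
      ∏ j ∈ Finset.range n, ENNReal.ofReal (stepProb w p j) := by
  classical
  set I : ℕ → ℤ × ℕ := fun j => (p j, visits p j) with hI
  have hinj : Function.Injective I := e1inj p
  have e : {u : ℤ × ℕ → ℝ | ∀ j < n, u (p j, visits p j) ∈ e1B w p j} =
      Set.pi ((Finset.range n).image I : Finset (ℤ × ℕ))
        (fun i => ⋂ j ∈ Finset.range n, ⋂ (_ : I j = i), e1B w p j) := by
    ext u
    simp only [Set.mem_setOf_eq, Set.mem_pi, Finset.coe_image, Set.mem_image, Finset.coe_range,
      Set.mem_Iio, Set.mem_iInter, Finset.mem_range]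
    constructor
    · rintro h i - j hj rfl
      exact h j hj
    · intro h j hj
      exact h (I j) ⟨j, hj, rfl⟩ j hj rfl
  rw [e]
  unfold e1nu
  rw [Measure.infinitePi_pi]
  · rw [Finset.prod_image (fun a _ b _ h => hinj h)]
    apply Finset.prod_congr rfl
    intro j hj
    rw [← e1B_prob hw]
    congr 1
    ext t
    simp only [Set.mem_iInter]
    constructor
    · intro h
      exact h j hj rfl
    · intro h j' hj' hh
      rw [hinj hh]; exact h
  · intro i _
    exact Finset.measurableSet_biInter _ (fun j _ => MeasurableSet.iInter fun _ => e1B_meas w p j)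

theorem e1E_meas {Ω : Type} [MeasurableSpace Ω] (e : Ω → ℤ → ℕ → ℝ) (he : Measurable e)
    (p : ℕ → ℤ) (n : ℕ) :
    MeasurableSet {z : Ω × (ℤ × ℕ → ℝ) | ∀ j ≤ n, (e1st (e z.1) z.2 j).1 = p j} := by
  have h0 : {z : Ω × (ℤ × ℕ → ℝ) | ∀ j ≤ n, (e1st (e z.1) z.2 j).1 = p j} =
      {z | p 0 = 0 ∧ ∀ j < n, z.2 (p j, visits p j) ∈ e1B (e z.1) p j} := by
    ext z
    exact e1event _ _ _ _
  rw [h0]
  have hz : ∀ i, Measurable (fun z : Ω × (ℤ × ℕ → ℝ) => z.2 i) := fun i =>
    (measurable_pi_apply i).comp measurable_snd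
  have hw : ∀ x i, Measurable (fun z : Ω × (ℤ × ℕ → ℝ) => e z.1 x i) := fun x i =>
    (measurable_pi_apply i).comp ((measurable_pi_apply x).comp (he.comp measurable_fst))
  have hj : ∀ j, MeasurableSet {z : Ω × (ℤ × ℕ → ℝ) | z.2 (p j, visits p j) ∈ e1B (e z.1) p j} := by
    intro j
    have h1 : MeasurableSet {z : Ω × (ℤ × ℕ → ℝ) |
        z.2 (p j, visits p j) < e z.1 (p j) (visits p j)} := measurableSet_lt (hz _) (hw _ _)
    exact ((h1.inter (MeasurableSet.const _)).union (h1.compl.inter (MeasurableSet.const _)))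
  have h2 : {z : Ω × (ℤ × ℕ → ℝ) | p 0 = 0 ∧ ∀ j < n, z.2 (p j, visits p j) ∈ e1B (e z.1) p j} =
      {z | p 0 = 0} ∩ ⋂ j ∈ Finset.range n, {z | z.2 (p j, visits p j) ∈ e1B (e z.1) p j} := by
    ext z
    simp
  rw [h2]
  exact (MeasurableSet.const _).inter (Finset.measurableSet_biInter _ (fun j _ => hj j))

theorem partE1 {Ω : Type} [MeasurableSpace Ω] (μ : Measure Ω) [IsProbabilityMeasure μ]
    (e : Ω → ℤ → ℕ → ℝ) (he : Measurable e) (h01 : ∀ w x i, e w x i ∈ Set.Icc (0:ℝ) 1) :
    ∃ (S : Type) (_ : MeasurableSpace S) (ν : Measure S) (_ : IsProbabilityMeasure ν)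
      (X : ℕ → Ω × S → ℤ), (∀ n, Measurable (X n)) ∧
      IsERW (μ.prod ν) (fun w => e w.1) X := by
  classical
  refine ⟨ℤ × ℕ → ℝ, inferInstance, e1nu, inferInstance, fun n z => (e1st (e z.1) z.2 n).1,
    ?_, ⟨?_⟩⟩
  · intro n
    apply measurable_to_countable'
    intro k
    have h : (fun z : Ω × (ℤ × ℕ → ℝ) => (e1st (e z.1) z.2 n).1) ⁻¹' {k} =
        ⋃ (q : Fin (n + 1) → ℤ) (_ : q (Fin.last n) = k),
          {z : Ω × (ℤ × ℕ → ℝ) | ∀ j ≤ n, (e1st (e z.1) z.2 j).1 =
            (fun j => if h : j < n + 1 then q ⟨j, h⟩ else 0) j} := by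
      ext z
      simp only [Set.mem_preimage, Set.mem_singleton_iff, Set.mem_iUnion, Set.mem_setOf_eq,
        exists_prop]
      constructor
      · intro hz
        refine ⟨fun j => (e1st (e z.1) z.2 j).1, hz, ?_⟩
        intro j hj
        rw [dif_pos (by omega)]
      · rintro ⟨q, hq, h⟩
        rw [h n le_rfl, dif_pos (by omega), ← hq]
        rfl
    rw [h]
    exact MeasurableSet.iUnion fun q => MeasurableSet.iUnion fun _ => e1E_meas e he _ n
  · intro n p A hA
    have hset : MeasurableSet {z : Ω × (ℤ × ℕ → ℝ) | e z.1 ∈ A ∧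
        ∀ j, j ≤ n → (e1st (e z.1) z.2 j).1 = p j} :=
      ((he.comp measurable_fst) hA).inter (e1E_meas e he p n)
    have hA' : MeasurableSet {z : Ω × (ℤ × ℕ → ℝ) | e z.1 ∈ A} := (he.comp measurable_fst) hA
    show (μ.prod e1nu) {z : Ω × (ℤ × ℕ → ℝ) | e z.1 ∈ A ∧
        ∀ j, j ≤ n → (e1st (e z.1) z.2 j).1 = p j} = _
    rw [Measure.prod_apply hset]
    by_cases hp : p 0 = 0
    · rw [if_pos hp]
      have hstep : Measurable (fun ω : Ω => ∏ j ∈ Finset.range n,
          ENNReal.ofReal (stepProb (e ω) p j)) := by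
        apply Finset.measurable_prod
        intro j _
        apply ENNReal.measurable_ofReal.comp
        have hw : Measurable (fun ω => e ω (p j) (visits p j)) :=
          (measurable_pi_apply _).comp ((measurable_pi_apply _).comp he)
        unfold stepProb
        by_cases h1 : p (j + 1) = p j + 1
        · simp only [if_pos h1]; exact hw
        · by_cases h2 : p (j + 1) = p j - 1
          · simp only [if_neg h1, if_pos h2]; exact measurable_const.sub hw
          · simp only [if_neg h1, if_neg h2]; exact measurable_const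
      have hm : Measurable ({z : Ω × (ℤ × ℕ → ℝ) | e z.1 ∈ A}.indicator
          (fun z : Ω × (ℤ × ℕ → ℝ) => ∏ j ∈ Finset.range n,
            ENNReal.ofReal (stepProb (e z.1) p j))) :=
        (hstep.comp measurable_fst).indicator hA'
      have hR : ∫⁻ w in {w : Ω × (ℤ × ℕ → ℝ) | e w.1 ∈ A}, ∏ j ∈ Finset.range n,
          ENNReal.ofReal (stepProb (e w.1) p j) ∂(μ.prod e1nu) =
          ∫⁻ ω, ∫⁻ u, ({z : Ω × (ℤ × ℕ → ℝ) | e z.1 ∈ A}.indicator
          (fun z : Ω × (ℤ × ℕ → ℝ) => ∏ j ∈ Finset.range n,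
            ENNReal.ofReal (stepProb (e z.1) p j))) (ω, u) ∂e1nu ∂μ := by
        rw [← lintegral_indicator hA', lintegral_prod _ hm.aemeasurable]
      rw [hR]
      apply lintegral_congr
      intro ω
      by_cases hω : e ω ∈ A
      · have e1 : (Prod.mk ω ⁻¹' {z : Ω × (ℤ × ℕ → ℝ) | e z.1 ∈ A ∧
            ∀ j, j ≤ n → (e1st (e z.1) z.2 j).1 = p j}) =
            {u | ∀ j < n, u (p j, visits p j) ∈ e1B (e ω) p j} := by
          ext u
          simp only [Set.mem_preimage, Set.mem_setOf_eq]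
          rw [e1event]
          simp [hω, hp]
        rw [e1, e1inner (h01 ω)]
        have e2 : ∀ u : ℤ × ℕ → ℝ, ({z : Ω × (ℤ × ℕ → ℝ) | e z.1 ∈ A}.indicator
            (fun z : Ω × (ℤ × ℕ → ℝ) => ∏ j ∈ Finset.range n,
              ENNReal.ofReal (stepProb (e z.1) p j)) (ω, u)) =
            ∏ j ∈ Finset.range n, ENNReal.ofReal (stepProb (e ω) p j) := by
          intro u
          rw [Set.indicator_of_mem]
          exact hω
        rw [lintegral_congr e2]
        simp
      · have e1 : (Prod.mk ω ⁻¹' {z : Ω × (ℤ × ℕ → ℝ) | e z.1 ∈ A ∧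
            ∀ j, j ≤ n → (e1st (e z.1) z.2 j).1 = p j}) = ∅ := by
          ext u
          simp [hω]
        have e2 : ∀ u : ℤ × ℕ → ℝ, ({z : Ω × (ℤ × ℕ → ℝ) | e z.1 ∈ A}.indicator
            (fun z : Ω × (ℤ × ℕ → ℝ) => ∏ j ∈ Finset.range n,
              ENNReal.ofReal (stepProb (e z.1) p j)) (ω, u)) = 0 := by
          intro u
          rw [Set.indicator_of_notMem]
          exact hω
        rw [e1, lintegral_congr e2]
        simp
    · rw [if_neg hp]
      have e1 : ∀ ω, e1nu (Prod.mk ω ⁻¹' {z : Ω × (ℤ × ℕ → ℝ) | e z.1 ∈ A ∧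
            ∀ j, j ≤ n → (e1st (e z.1) z.2 j).1 = p j}) = 0 := by
        intro ω
        have : (Prod.mk ω ⁻¹' {z : Ω × (ℤ × ℕ → ℝ) | e z.1 ∈ A ∧
            ∀ j, j ≤ n → (e1st (e z.1) z.2 j).1 = p j}) = ∅ := by
          ext u
          simp only [Set.mem_preimage, Set.mem_setOf_eq, Set.mem_empty_iff_false, iff_false]
          rintro ⟨-, h⟩
          exact hp ((e1event _ _ _ _).mp h).1
        rw [this]; simp
      rw [lintegral_congr e1]
      simp

end Pool.H878.ERW
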