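import Pool.Agent.Helper878.ERW.Defs

set_option autoImplicit false

open MeasureTheory Filter Topology
open scoped BigOperators ENNReal

namespace Pool.H878.ERW



/-- number of departures from `y` before time `k` -/
def cc (p : ℕ → ℤ) (k : ℕ) : ℤ → ℕ := fun y => ((Finset.range k).filter (fun m => p m = y)).card

theorem cc_congr (p q : ℕ → ℤ) (k : ℕ) (h : ∀ m, m < k → q m = p m) : cc q k = cc p k := by
  funext y
  unfold cc
  congr 1
  refine Finset.filter_congr (fun m hm => ?_)
  rw [h m (Finset.mem_range.mp hm)]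

theorem cc_succ (p : ℕ → ℤ) (k : ℕ) :
    cc p (k + 1) = Function.update (cc p k) (p k) (cc p k (p k) + 1) := by
  funext y
  by_cases hy : y = p k
  · subst hy
    rw [Function.update_self]
    unfold cc
    rw [Finset.range_add_one, Finset.filter_insert, if_pos rfl, Finset.card_insert_of_notMem]
    simp
  · rw [Function.update_of_ne hy]
    unfold cc
    rw [Finset.range_add_one, Finset.filter_insert, if_neg (fun h => hy h.symm)]

theorem visits_eq (p : ℕ → ℤ) (k : ℕ) : visits p k = cc p k (p k) + 1 := by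
  have h1 : visits p k = cc p (k + 1) (p k) := rfl
  rw [h1, cc_succ, Function.update_self]

theorem visits_congr (p q : ℕ → ℤ) (j : ℕ) (h : ∀ m, m ≤ j → q m = p m) :
    visits q j = visits p j := by
  rw [visits_eq, visits_eq, cc_congr p q j (fun m hm => h m hm.le), h j le_rfl]

theorem stepProb_congr (w : ℤ → ℕ → ℝ) (p q : ℕ → ℤ) (j : ℕ) (h : ∀ m, m ≤ j + 1 → q m = p m) :
    stepProb w q j = stepProb w p j := by
  unfold stepProb
  rw [visits_congr p q j (fun m hm => h m (hm.trans (Nat.le_succ j))), h j (Nat.le_succ j),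
    h (j + 1) le_rfl]

theorem stay_nonneg (w : ℤ → ℕ → ℝ) (hw : ∀ x i, w x i ∈ Set.Icc (0:ℝ) 1) (n : ℕ) :
    ∀ (x : ℤ) (c : ℤ → ℕ), 0 ≤ stay w n x c := by
  induction n with
  | zero => intro x c; simp [stay]
  | succ n ih =>
    intro x c
    rw [stay]
    have h1 := (hw x (c x + 1)).1
    have h2 := (hw x (c x + 1)).2
    refine add_nonneg (mul_nonneg h1 ?_) (mul_nonneg (by linarith) ?_)
    · split_ifs
      · exact ih _ _
      · exact le_rfl
    · split_ifs
      · exact ih _ _
      · exact le_rfl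

theorem stay_meas (n : ℕ) : ∀ (x : ℤ) (c : ℤ → ℕ),
    Measurable (fun w : ℤ → ℕ → ℝ => stay w n x c) := by
  induction n with
  | zero => intro x c; simp only [stay]; exact measurable_const
  | succ n ih =>
    intro x c
    simp only [stay]
    have h1 : Measurable (fun w : ℤ → ℕ → ℝ => w x (c x + 1)) :=
      (measurable_pi_apply (c x + 1)).comp (measurable_pi_apply x)
    refine Measurable.add (h1.mul ?_) ((measurable_const.sub h1).mul ?_)
    · split_ifs
      · exact ih _ _
      · exact measurable_const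
    · split_ifs
      · exact ih _ _
      · exact measurable_const

theorem stepProb_meas (p : ℕ → ℤ) (j : ℕ) :
    Measurable (fun w : ℤ → ℕ → ℝ => stepProb w p j) := by
  unfold stepProb
  have h1 : Measurable (fun w : ℤ → ℕ → ℝ => w (p j) (visits p j)) :=
    (measurable_pi_apply (visits p j)).comp (measurable_pi_apply (p j))
  split_ifs
  · exact h1
  · exact measurable_const.sub h1
  · exact measurable_const

/-- the integrand attached to a prefix -/
noncomputable def integrand (w : ℤ → ℕ → ℝ) (n k : ℕ) (p : ℕ → ℤ) : ℝ≥0∞ :=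
  (∏ j ∈ Finset.range k, ENNReal.ofReal (stepProb w p j)) * ENNReal.ofReal (stay w n (p k) (cc p k))

theorem integrand_meas (n k : ℕ) (p : ℕ → ℤ) :
    Measurable (fun w : ℤ → ℕ → ℝ => integrand w n k p) := by
  unfold integrand
  refine Measurable.mul ?_ (ENNReal.measurable_ofReal.comp (stay_meas n _ _))
  exact Finset.measurable_prod _ (fun j _ => ENNReal.measurable_ofReal.comp (stepProb_meas p j))

theorem integrand_split (w : ℤ → ℕ → ℝ) (hw : ∀ x i, w x i ∈ Set.Icc (0:ℝ) 1) (n k : ℕ)
    (p q r : ℕ → ℤ) (hq : ∀ m, m ≤ k → q m = p m) (hq1 : q (k + 1) = p k + 1)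
    (hr : ∀ m, m ≤ k → r m = p m) (hr1 : r (k + 1) = p k - 1) :
    integrand w (n + 1) k p =
      (if 1 ≤ p k + 1 then integrand w n (k + 1) q else 0) +
      (if 1 ≤ p k - 1 then integrand w n (k + 1) r else 0) := by
  have hprodq : (∏ j ∈ Finset.range (k + 1), ENNReal.ofReal (stepProb w q j)) =
      (∏ j ∈ Finset.range k, ENNReal.ofReal (stepProb w p j)) * ENNReal.ofReal (w (p k) (cc p k (p k) + 1)) := by
    rw [Finset.prod_range_succ]
    congr 1
    · refine Finset.prod_congr rfl (fun j hj => ?_)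
      rw [stepProb_congr w p q j (fun m hm => hq m (by have := Finset.mem_range.mp hj; omega))]
    · congr 1
      unfold stepProb
      rw [if_pos (by rw [hq1, hq k le_rfl]), visits_congr p q k hq, visits_eq, hq k le_rfl]
  have hprodr : (∏ j ∈ Finset.range (k + 1), ENNReal.ofReal (stepProb w r j)) =
      (∏ j ∈ Finset.range k, ENNReal.ofReal (stepProb w p j)) *
        ENNReal.ofReal (1 - w (p k) (cc p k (p k) + 1)) := by
    rw [Finset.prod_range_succ]
    congr 1
    · refine Finset.prod_congr rfl (fun j hj => ?_)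
      rw [stepProb_congr w p r j (fun m hm => hr m (by have := Finset.mem_range.mp hj; omega))]
    · congr 1
      unfold stepProb
      rw [if_neg (by rw [hr1, hr k le_rfl]; omega), if_pos (by rw [hr1, hr k le_rfl]),
        visits_congr p r k hr, visits_eq, hr k le_rfl]
  have hccq : cc q (k + 1) = Function.update (cc p k) (p k) (cc p k (p k) + 1) := by
    rw [cc_succ, cc_congr p q k (fun m hm => hq m hm.le), hq k le_rfl]
  have hccr : cc r (k + 1) = Function.update (cc p k) (p k) (cc p k (p k) + 1) := by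
    rw [cc_succ, cc_congr p r k (fun m hm => hr m hm.le), hr k le_rfl]
  have h1 := (hw (p k) (cc p k (p k) + 1)).1
  have h2 := (hw (p k) (cc p k (p k) + 1)).2
  unfold integrand
  rw [hprodq, hprodr, hccq, hccr, hq1, hr1]
  have h3 : stay w (n + 1) (p k) (cc p k) = w (p k) (cc p k (p k) + 1) *
      (if 1 ≤ p k + 1 then stay w n (p k + 1) (Function.update (cc p k) (p k) (cc p k (p k) + 1)) else 0)
      + (1 - w (p k) (cc p k (p k) + 1)) *
        (if 1 ≤ p k - 1 then stay w n (p k - 1) (Function.update (cc p k) (p k) (cc p k (p k) + 1)) else 0) := by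
    rw [stay]
  have h4 := stay_nonneg w hw n (p k + 1) (Function.update (cc p k) (p k) (cc p k (p k) + 1))
  have h5 := stay_nonneg w hw n (p k - 1) (Function.update (cc p k) (p k) (cc p k (p k) + 1))
  rw [h3, ENNReal.ofReal_add, ENNReal.ofReal_mul h1, ENNReal.ofReal_mul (by linarith), mul_add]
  · congr 1
    · split_ifs
      · rw [mul_assoc]
      · simp
    · split_ifs
      · rw [mul_assoc]
      · simp
  · refine mul_nonneg h1 ?_
    split_ifs
    · exact h4
    · exact le_rfl
  · refine mul_nonneg (by linarith) ?_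
    split_ifs
    · exact h5
    · exact le_rfl

theorem ev_meas {Ω : Type} [MeasurableSpace Ω] (X : ℕ → Ω → ℤ) (hX : ∀ n, Measurable (X n))
    (k n : ℕ) (p : ℕ → ℤ) :
    MeasurableSet {w | (∀ j, j ≤ k → X j w = p j) ∧ ∀ j, 1 ≤ j → j ≤ n → 1 ≤ X j w} := by
  have h1 : MeasurableSet {w | ∀ j, j ≤ k → X j w = p j} := by
    have : {w | ∀ j, j ≤ k → X j w = p j} = ⋂ j, ⋂ (_ : j ≤ k), {w | X j w = p j} := by
      ext w; simp
    rw [this]
    exact MeasurableSet.iInter (fun j => MeasurableSet.iInter (fun _ => hX j (measurableSet_singleton _)))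
  have h2 : MeasurableSet {w | ∀ j, 1 ≤ j → j ≤ n → 1 ≤ X j w} := by
    have : {w | ∀ j, 1 ≤ j → j ≤ n → 1 ≤ X j w} = ⋂ j, ⋂ (_ : 1 ≤ j), ⋂ (_ : j ≤ n), {w | 1 ≤ X j w} := by
      ext w; simp
    rw [this]
    exact MeasurableSet.iInter (fun j => MeasurableSet.iInter (fun _ => MeasurableSet.iInter (fun _ =>
      hX j measurableSet_Ici)))
  exact h1.inter h2

theorem partE2_aux {Ω : Type} [MeasurableSpace Ω] (μ : Measure Ω) [IsProbabilityMeasure μ]
    (env : Ω → ℤ → ℕ → ℝ) (X : ℕ → Ω → ℤ) (henv : Measurable env) (hX : ∀ n, Measurable (X n))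
    (h01 : ∀ w x i, env w x i ∈ Set.Icc (0:ℝ) 1) (h : IsERW μ env X) (n : ℕ) :
    ∀ (k : ℕ) (p : ℕ → ℤ), p 0 = 0 → (∀ j, 1 ≤ j → j ≤ k → 1 ≤ p j) →
      ∫⁻ w, integrand (env w) n k p ∂μ ≤
        μ {w | (∀ j, j ≤ k → X j w = p j) ∧ ∀ j, 1 ≤ j → j ≤ k + n → 1 ≤ X j w} := by
  induction n with
  | zero =>
    intro k p hp0 hp
    have h1 := h.law k p Set.univ MeasurableSet.univ
    rw [if_pos hp0] at h1
    have h2 : {w | (∀ j, j ≤ k → X j w = p j) ∧ ∀ j, 1 ≤ j → j ≤ k + 0 → 1 ≤ X j w} =
        {w | env w ∈ Set.univ ∧ ∀ j, j ≤ k → X j w = p j} := by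
      ext w
      simp only [Set.mem_ofPred_eq, Set.mem_univ, true_and]
      constructor
      · exact fun h3 => h3.1
      · intro h3
        refine ⟨h3, fun j hj1 hj2 => ?_⟩
        rw [h3 j hj2]
        exact hp j hj1 hj2
    rw [h2, h1]
    simp [integrand, stay]
  | succ n ih =>
    intro k p hp0 hp
    let q : ℕ → ℤ := Function.update p (k + 1) (p k + 1)
    let r : ℕ → ℤ := Function.update p (k + 1) (p k - 1)
    have hq : ∀ m, m ≤ k → q m = p m := fun m hm => Function.update_of_ne (by omega) _ _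
    have hr : ∀ m, m ≤ k → r m = p m := fun m hm => Function.update_of_ne (by omega) _ _
    have hq1 : q (k + 1) = p k + 1 := Function.update_self _ _ _
    have hr1 : r (k + 1) = p k - 1 := Function.update_self _ _ _
    have hsplit : ∀ w, integrand (env w) (n + 1) k p =
        (if 1 ≤ p k + 1 then integrand (env w) n (k + 1) q else 0) +
        (if 1 ≤ p k - 1 then integrand (env w) n (k + 1) r else 0) := fun w =>
      integrand_split (env w) (h01 w) n k p q r hq hq1 hr hr1
    simp_rw [hsplit]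
    have hm1 : Measurable (fun w => if 1 ≤ p k + 1 then integrand (env w) n (k + 1) q else 0) := by
      split_ifs
      · exact (integrand_meas n (k + 1) q).comp henv
      · exact measurable_const
    rw [lintegral_add_left hm1]
    let Eq' : Set Ω := {w | (∀ j, j ≤ k + 1 → X j w = q j) ∧ ∀ j, 1 ≤ j → j ≤ k + 1 + n → 1 ≤ X j w}
    let Er : Set Ω := {w | (∀ j, j ≤ k + 1 → X j w = r j) ∧ ∀ j, 1 ≤ j → j ≤ k + 1 + n → 1 ≤ X j w}
    have hA : ∫⁻ w, (if 1 ≤ p k + 1 then integrand (env w) n (k + 1) q else 0) ∂μ ≤ μ Eq' := by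
      split_ifs with hc
      · refine ih (k + 1) q (by rw [hq 0 (Nat.zero_le _), hp0]) (fun j hj1 hj2 => ?_)
        rcases Nat.lt_or_ge k j with h3 | h3
        · have : j = k + 1 := by omega
          rw [this, hq1]; exact hc
        · rw [hq j h3]; exact hp j hj1 h3
      · simp
    have hB : ∫⁻ w, (if 1 ≤ p k - 1 then integrand (env w) n (k + 1) r else 0) ∂μ ≤ μ Er := by
      split_ifs with hc
      · refine ih (k + 1) r (by rw [hr 0 (Nat.zero_le _), hp0]) (fun j hj1 hj2 => ?_)
        rcases Nat.lt_or_ge k j with h3 | h3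
        · have : j = k + 1 := by omega
          rw [this, hr1]; exact hc
        · rw [hr j h3]; exact hp j hj1 h3
      · simp
    refine (add_le_add hA hB).trans ?_
    have hdisj : Disjoint Eq' Er := by
      rw [Set.disjoint_left]
      intro w h3 h4
      have h5 := h3.1 (k + 1) le_rfl
      have h6 := h4.1 (k + 1) le_rfl
      rw [hq1] at h5
      rw [hr1] at h6
      omega
    rw [← measure_union hdisj (ev_meas X hX (k + 1) (k + 1 + n) r)]
    refine measure_mono ?_
    rintro w (h3 | h3)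
    · refine ⟨fun j hj => ?_, fun j hj1 hj2 => h3.2 j hj1 (by omega)⟩
      rw [h3.1 j (by omega), hq j hj]
    · refine ⟨fun j hj => ?_, fun j hj1 hj2 => h3.2 j hj1 (by omega)⟩
      rw [h3.1 j (by omega), hr j hj]

theorem partE2 {Ω : Type} [MeasurableSpace Ω] (μ : Measure Ω) [IsProbabilityMeasure μ]
    (env : Ω → ℤ → ℕ → ℝ) (X : ℕ → Ω → ℤ) (henv : Measurable env) (hX : ∀ n, Measurable (X n))
    (h01 : ∀ w x i, env w x i ∈ Set.Icc (0:ℝ) 1) (h : IsERW μ env X) (n : ℕ) :
    ∫⁻ w, ENNReal.ofReal (stay (env w) n 0 (fun _ => 0)) ∂μ ≤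
      μ {w | ∀ j, 1 ≤ j → j ≤ n → 1 ≤ X j w} := by
  have h1 := partE2_aux μ env X henv hX h01 h n 0 (fun _ => 0) rfl (fun j hj1 hj2 => by omega)
  have h2 : ∀ w, integrand (env w) n 0 (fun _ => 0) = ENNReal.ofReal (stay (env w) n 0 (fun _ => 0)) := by
    intro w
    unfold integrand
    have : cc (fun _ => 0) 0 = fun _ => 0 := by
      funext y; simp [cc]
    rw [this]
    simp
  simp_rw [h2] at h1
  refine h1.trans (measure_mono ?_)
  intro w hw j hj1 hj2
  exact hw.2 j hj1 (by omega)

end Pool.H878.ERW
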