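import Pool.Agent.Helper878.ERW.PartA
import Pool.Agent.Helper878.ERW.PartB1
import Pool.Agent.Helper878.ERW.PartB2
import Pool.Agent.Helper878.ERW.PartB3
import Pool.Agent.Helper878.ERW.PartC
import Pool.Agent.Helper878.ERW.PartD
import Pool.Agent.Helper878.ERW.PartE1
import Pool.Agent.Helper878.ERW.PartE2

set_option autoImplicit false

open MeasureTheory Filter Topology
open scoped BigOperators ENNReal

namespace Pool.H878.ERW

theorem fz_val (j r : ℕ) : fz j r = 0 ∨ fz j r = 3 ∨ fz j r = -3 := by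
  induction j generalizing r with
  | zero => unfold fz; split_ifs <;> simp
  | succ j ih =>
    unfold fz
    split_ifs
    · simp
    · simp
    · exact ih _

theorem DD_val (r : ℕ → ℕ) : DD r = 0 ∨ DD r = 3 ∨ DD r = -3 := by
  unfold DD
  split_ifs
  · exact fz_val _ _
  · simp

/-- the environment attached to a family of residues -/
noncomputable def ev (r : ℕ → ℤ → ℕ) : ℤ → ℕ → ℝ :=
  om (fun x => ca (DD fun j => r j x)) (fun x => cb (DD fun j => r j x))

/-- cookie strengths as a function of the type -/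
noncomputable def ck (d : ℤ) (i : ℕ) : ℝ :=
  if i = 0 then 1 / 2 else if i ≤ ca d then 1 else if i ≤ ca d + cb d then 0 else 1 / 2

theorem ev_eq (r : ℕ → ℤ → ℕ) (x : ℤ) (i : ℕ) : ev r x i = ck (DD fun j => r j x) i := rfl

theorem om_mem (a b : ℤ → ℕ) (x : ℤ) (i : ℕ) : om a b x i ∈ Set.Icc (0:ℝ) 1 := by
  unfold om; split_ifs <;> norm_num

theorem ck_bd (d : ℤ) (hd : d = 0 ∨ d = 3 ∨ d = -3) (i : ℕ) (hi : 5 < i) : ck d i = 1 / 2 := by
  have h1 : ca d + cb d ≤ 5 := by
    rcases hd with rfl | rfl | rfl <;> simp [ca, cb]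
  unfold ck
  rw [if_neg (by omega), if_neg (by omega), if_neg (by omega)]

theorem ck_zero (i : ℕ) : ck 0 i = 1 / 2 := by
  have h1 : ca 0 = 0 := by simp [ca]
  have h2 : cb 0 = 0 := by simp [cb]
  unfold ck
  rw [h1, h2]
  split_ifs <;> first | rfl | omega

theorem ck_sum (d : ℤ) (hd : d = 0 ∨ d = 3 ∨ d = -3) :
    ∑' i : ℕ, (2 * ck d (i + 1) - 1) = (d : ℝ) := by
  have h0 : ∀ i ∉ Finset.range 5, 2 * ck d (i + 1) - 1 = 0 := by
    intro i hi
    rw [ck_bd d hd (i + 1) (by simp at hi; omega)]; norm_num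
  rw [tsum_eq_sum h0]
  rcases hd with rfl | rfl | rfl <;>
    simp [Finset.sum_range_succ, ck, ca, cb] <;> norm_num

theorem ca_cb (d : ℤ) (hd : d = 0 ∨ d = 3 ∨ d = -3) (h : ca d = 0) : cb d = 0 := by
  rcases hd with rfl | rfl | rfl <;> simp_all [ca, cb]

theorem NN_one_le (i : ℕ) : 1 ≤ NN i := by
  induction i with
  | zero => simp [NN]
  | succ i ih =>
    rw [NN]
    exact Nat.one_le_iff_ne_zero.2 (by positivity)

theorem le_LL (i : ℕ) : i ≤ LL i := by
  have h3 : i ≤ cexp i := by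
    unfold cexp
    nlinarith [Nat.zero_le i, Nat.zero_le (i^2), Nat.zero_le (i^3)]
  calc i ≤ 2 ^ i := Nat.lt_two_pow_self.le
    _ ≤ 2 ^ (cexp i) := Nat.pow_le_pow_right (by norm_num) h3
    _ ≤ NN i * 2 ^ (cexp i) := Nat.le_mul_of_pos_left _ (NN_one_le i)
    _ = LL i := rfl

attribute [local irreducible] DD NN LL cexp fz

theorem ev_measurable {Ω : Type} [MeasurableSpace Ω] (r : Ω → ℕ → ℤ → ℕ)
    (hm : ∀ j x, Measurable fun w => r w j x) : Measurable (fun w => ev (r w)) := by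
  refine measurable_pi_iff.2 fun x => measurable_pi_iff.2 fun i => ?_
  simp only [ev_eq]
  have h0 : Measurable (fun w => (fun j => r w j x)) := measurable_pi_iff.2 fun j => hm j x
  have h1 : Measurable (fun w => DD (fun j => r w j x)) :=
    Measurable.comp (g := fun s : ℕ → ℕ => DD s) (f := fun w => (fun j => r w j x))
      DD_measurable h0
  exact Measurable.comp (g := fun d : ℤ => ck d i) (f := fun w => DD (fun j => r w j x))
    (measurable_of_countable _) h1

/-- the bound `p` of part B -/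
theorem partB : ∃ p : ℕ → ℝ, Summable p ∧ (∀ N, 0 ≤ p N) ∧ ∀ r, Cons r → ∀ N, 1 ≤ N →
    PP (fun x => ca (DD fun j => r j x)) (fun x => cb (DD fun j => r j x)) N ≤ p N := by
  obtain ⟨p, hs, h0, hp⟩ := partB3
  refine ⟨p, hs, h0, fun r hr N hN => ?_⟩
  have hex : ∃ i, N - 1 ≤ LL i := by
    exact ⟨N - 1, le_LL _⟩
  have h1 : N - 1 ≤ LL (Nat.find hex) := Nat.find_spec hex
  have h2 : ∀ j, j < Nat.find hex → LL j < N - 1 := fun j hj => by
    have := Nat.find_min hex hj
    omega
  refine le_trans ?_ (hp N _ hN h1 h2)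
  refine partB2 (fun x => DD fun j => r j x) (fun x => DD_val _) N hN ?_ _ h1 h2
  intro h0N j a k hak hk
  exact partB1 r hr N h0N j a k hak hk


theorem ergodic_map {Ω : Type} [MeasurableSpace Ω] (μ : Measure Ω) [IsProbabilityMeasure μ]
    (T : Ω → Ω) (hT : Ergodic T μ) (e : Ω → ℤ → ℕ → ℝ) (he : Measurable e)
    (hc : ∀ w, e (T w) = fun z => e w (z + 1)) :
    Ergodic (fun (e : ℤ → ℕ → ℝ) (z : ℤ) => e (z + 1)) (μ.map e) := by
  set S : (ℤ → ℕ → ℝ) → (ℤ → ℕ → ℝ) := fun e z => e (z + 1) with hS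
  have hSm : Measurable S := measurable_pi_iff.2 fun z => measurable_pi_apply (z + 1)
  have hcomp : e ∘ T = S ∘ e := by
    funext w
    exact hc w
  have hmp : MeasurePreserving S (μ.map e) (μ.map e) := by
    refine ⟨hSm, ?_⟩
    rw [Measure.map_map hSm he, ← hcomp, ← Measure.map_map he hT.measurable,
      hT.toMeasurePreserving.map_eq]
  refine ⟨hmp, ⟨fun s hs hinv => ?_⟩⟩
  have h1 : MeasurableSet (e ⁻¹' s) := he hs
  have h2 : T ⁻¹' (e ⁻¹' s) = e ⁻¹' s := by
    rw [← Set.preimage_comp, hcomp, Set.preimage_comp, hinv]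
  have h3 := hT.toPreErgodic.aeconst_set h1 h2
  rw [Filter.eventuallyConst_set'] at h3 ⊢
  rcases h3 with h3 | h3
  · left
    rw [ae_eq_empty] at h3 ⊢
    rwa [Measure.map_apply he hs]
  · right
    rw [ae_eq_univ] at h3 ⊢
    rwa [Measure.map_apply he hs.compl]

theorem main : ∃ (Ω : Type) (_ : MeasurableSpace Ω) (μ : Measure Ω) (_ : IsProbabilityMeasure μ)
    (env : Ω → ℤ → ℕ → ℝ) (X : ℕ → Ω → ℤ),
    Measurable env ∧ (∀ n, Measurable (X n)) ∧ (∀ w z i, env w z i ∈ Set.Icc (0:ℝ) 1) ∧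
    IsERW μ env X ∧
    Ergodic (fun (e : ℤ → ℕ → ℝ) (z : ℤ) => e (z + 1)) (μ.map env) ∧
    (∃ M : ℕ, ∀ᵐ w ∂μ, ∀ z i, M < i → env w z i = 1 / 2) ∧
    (∀ z, 0 < μ {w | ∀ i, 1 ≤ i → 0 < env w z i}) ∧
    (∀ z, 0 < μ {w | ∀ i, 1 ≤ i → env w z i < 1}) ∧
    (∫ w, (∑' i : ℕ, (2 * env w 0 (i + 1) - 1)) ∂μ = 1) ∧
    0 < μ {w | ∀ n, 1 ≤ n → 1 ≤ X n w} := by
  obtain ⟨Ω, mΩ, μ, hμ, T, r, hT, hm, hs, hlt, hsucc, hc, hu⟩ := partC
  obtain ⟨hcons, hint, hpos⟩ := partD μ T r hT.toMeasurePreserving hm hs hlt hsucc hc hu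
  obtain ⟨p, hsum, hp0, hp⟩ := partB
  have hem : Measurable (fun w => ev (r w)) := ev_measurable r hm
  have h01 : ∀ w x i, ev (r w) x i ∈ Set.Icc (0:ℝ) 1 := fun w x i => om_mem _ _ _ _
  obtain ⟨S, mS, ν, hν, X, hX, hlaw⟩ := partE1 μ (fun w => ev (r w)) hem h01
  have hfst : (μ.prod ν).map Prod.fst = μ := by
    rw [Measure.map_fst_prod]; simp
  have hmf : MeasurePreserving (Prod.fst : Ω × S → Ω) (μ.prod ν) μ := ⟨measurable_fst, hfst⟩
  have hmeasD : ∀ x : ℤ, Measurable (fun w => DD (fun j => r w j x)) := by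
    intro x
    have h0 : Measurable (fun w => (fun j => r w j x)) := measurable_pi_iff.2 fun j => hm j x
    exact Measurable.comp (g := fun s : ℕ → ℕ => DD s) (f := fun w => (fun j => r w j x))
      DD_measurable h0
  -- the type at every site is neutral with positive probability
  have hneu : ∀ z : ℤ, 0 < μ {w | DD (fun j => r w j z) = 0} := by
    have hstep : ∀ z : ℤ, μ {w | DD (fun j => r w j (z + 1)) = 0} =
        μ {w | DD (fun j => r w j z) = 0} := by
      intro z
      have hms : MeasurableSet {w | DD (fun j => r w j z) = 0} :=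
        (hmeasD z) (measurableSet_singleton 0)
      rw [← hT.toMeasurePreserving.measure_preimage hms.nullMeasurableSet]
      congr 1
      ext w
      simp only [Set.mem_preimage, Set.mem_setOf_eq, hs]
    intro z
    induction z using Int.induction_on with
    | zero => exact hpos
    | succ i ih => rw [hstep]; exact ih
    | pred i ih =>
      have := hstep (-(i:ℤ) - 1)
      rw [show -(i:ℤ) - 1 + 1 = -(i:ℤ) by ring] at this
      rw [← this]; exact ih
  refine ⟨Ω × S, inferInstance, μ.prod ν, inferInstance, fun w => ev (r w.1), X,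
    hem.comp measurable_fst, hX, fun w x i => h01 w.1 x i, hlaw, ?_, ?_, ?_, ?_, ?_, ?_⟩
  · -- ergodicity
    have h1 : (μ.prod ν).map (fun w : Ω × S => ev (r w.1)) = μ.map (fun w => ev (r w)) := by
      have h2 : (fun w : Ω × S => ev (r w.1)) = (fun w => ev (r w)) ∘ Prod.fst := rfl
      rw [h2, ← Measure.map_map hem measurable_fst, hfst]
    rw [h1]
    refine ergodic_map μ T hT _ hem fun w => ?_
    funext z
    funext i
    simp only [ev_eq, hs]
  · exact ⟨5, Filter.Eventually.of_forall fun w z i hi => ck_bd _ (DD_val _) i hi⟩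
  · intro z
    have h1 : (Prod.fst : Ω × S → Ω) ⁻¹' {w | DD (fun j => r w j z) = 0} ⊆
        {w : Ω × S | ∀ i, 1 ≤ i → 0 < ev (r w.1) z i} := by
      intro w hw i _
      have hw' : DD (fun j => r w.1 j z) = 0 := hw
      rw [ev_eq, hw', ck_zero]; norm_num
    refine lt_of_lt_of_le ?_ (measure_mono h1)
    have h2 : MeasurableSet {w | DD (fun j => r w j z) = 0} :=
      (hmeasD z) (measurableSet_singleton 0)
    rw [hmf.measure_preimage h2.nullMeasurableSet]
    exact hneu z
  · intro z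
    have h1 : (Prod.fst : Ω × S → Ω) ⁻¹' {w | DD (fun j => r w j z) = 0} ⊆
        {w : Ω × S | ∀ i, 1 ≤ i → ev (r w.1) z i < 1} := by
      intro w hw i _
      have hw' : DD (fun j => r w.1 j z) = 0 := hw
      rw [ev_eq, hw', ck_zero]; norm_num
    refine lt_of_lt_of_le ?_ (measure_mono h1)
    have h2 : MeasurableSet {w | DD (fun j => r w j z) = 0} :=
      (hmeasD z) (measurableSet_singleton 0)
    rw [hmf.measure_preimage h2.nullMeasurableSet]
    exact hneu z
  · -- mean drift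
    have h1 : (fun w : Ω × S => ∑' i : ℕ, (2 * ev (r w.1) 0 (i + 1) - 1)) =
        fun w : Ω × S => ((DD (fun j => r w.1 j 0) : ℤ) : ℝ) := by
      funext w
      simp only [ev_eq]
      exact ck_sum _ (DD_val _)
    rw [h1]
    have hmr : Measurable (fun w => ((DD (fun j => r w j 0) : ℤ) : ℝ)) :=
      Measurable.comp (g := fun d : ℤ => (d : ℝ)) (f := fun w => DD (fun j => r w j 0))
        (measurable_of_countable _) (hmeasD 0)
    have h2 := integral_map (μ := μ.prod ν) (φ := Prod.fst) measurable_fst.aemeasurable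
      (f := fun w => ((DD (fun j => r w j 0) : ℤ) : ℝ))
      (by rw [hfst]; exact hmr.aestronglyMeasurable)
    rw [hfst] at h2
    rw [← h2]
    exact hint
  · -- survival
    obtain ⟨K, hK1, hK⟩ : ∃ K, 1 ≤ K ∧ ∀ m, ∑ N ∈ Finset.Icc K (K + m), p N ≤ 1 / 2 := by
      have h1 := tendsto_sum_nat_add p
      have h2 : ∀ᶠ i in atTop, ∑' k, p (k + i) < 1 / 2 :=
        h1.eventually (gt_mem_nhds (by norm_num))
      obtain ⟨K, hK1, hK2⟩ := (h2.and (eventually_ge_atTop 1)).exists
      refine ⟨K, hK2, fun m => ?_⟩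
      have h3 : Summable fun k => p (k + K) := (summable_nat_add_iff K).2 hsum
      have h4 : ∑ N ∈ Finset.Icc K (K + m), p N = ∑ k ∈ Finset.range (m + 1), p (k + K) := by
        rw [Finset.range_eq_Ico, Finset.sum_Ico_add' (fun k => p k) 0 (m + 1) K]
        congr 1
        ext x
        simp only [Finset.mem_Icc, Finset.mem_Ico]
        omega
      rw [h4]
      exact (h3.sum_le_tsum _ (fun i _ => hp0 _)).trans hK1.le
    set c : ℝ := (1 / 2) ^ K * (1 / 2) with hcdef
    have hc0 : 0 < c := by positivity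
    have hstay : ∀ m, ∀ᵐ w ∂(μ.prod ν), c ≤ stay (ev (r w.1)) (K + m) 0 (fun _ => 0) := by
      intro m
      have h1 : ∀ᵐ w ∂(μ.prod ν), Cons (r w.1) := hmf.quasiMeasurePreserving.ae hcons
      filter_upwards [h1] with w hw
      have h2 := partA (fun x => ca (DD fun j => r w.1 j x)) (fun x => cb (DD fun j => r w.1 j x))
        (fun y hy => ca_cb _ (DD_val _) hy) p hp0 K hK1
        (fun N hN => hp (r w.1) hw N (hK1.trans hN)) m
      refine le_trans ?_ h2
      rw [hcdef]
      have := hK m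
      have h5 : (0:ℝ) < (1 / 2) ^ K := by positivity
      nlinarith
    have hlow : ∀ n, ENNReal.ofReal c ≤
        (μ.prod ν) {w : Ω × S | ∀ j, 1 ≤ j → j ≤ n → 1 ≤ X j w} := by
      intro n
      have h1 := partE2 (μ.prod ν) (fun w => ev (r w.1)) X (hem.comp measurable_fst) hX
        (fun w x i => h01 w.1 x i) hlaw (K + n)
      have h2 : ENNReal.ofReal c ≤
          ∫⁻ w, ENNReal.ofReal (stay (ev (r w.1)) (K + n) 0 (fun _ => 0)) ∂(μ.prod ν) := by
        calc ENNReal.ofReal c = ∫⁻ _w, ENNReal.ofReal c ∂(μ.prod ν) := by simp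
          _ ≤ _ := by
            refine lintegral_mono_ae ?_
            filter_upwards [hstay n] with w hw
            exact ENNReal.ofReal_le_ofReal hw
      refine (h2.trans h1).trans (measure_mono ?_)
      intro w hw j hj1 hj2
      exact hw j hj1 (by omega)
    have hset : {w : Ω × S | ∀ n, 1 ≤ n → 1 ≤ X n w} =
        ⋂ n : ℕ, {w : Ω × S | ∀ j, 1 ≤ j → j ≤ n → 1 ≤ X j w} := by
      ext w
      simp only [Set.mem_setOf_eq, Set.mem_iInter]
      exact ⟨fun h n j hj _ => h j hj, fun h n hn => h n n hn le_rfl⟩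
    have hmeas : ∀ n, MeasurableSet {w : Ω × S | ∀ j, 1 ≤ j → j ≤ n → 1 ≤ X j w} := by
      intro n
      have : {w : Ω × S | ∀ j, 1 ≤ j → j ≤ n → 1 ≤ X j w} =
          ⋂ j : ℕ, ⋂ _ : 1 ≤ j, ⋂ _ : j ≤ n, {w | 1 ≤ X j w} := by
        ext w; simp
      rw [this]
      exact MeasurableSet.iInter fun j => MeasurableSet.iInter fun _ => MeasurableSet.iInter fun _ =>
        measurableSet_le measurable_const (hX j)
    have hanti : Antitone fun n : ℕ => {w : Ω × S | ∀ j, 1 ≤ j → j ≤ n → 1 ≤ X j w} := by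
      intro a b hab w hw j hj1 hj2
      exact hw j hj1 (hj2.trans hab)
    rw [hset]
    have hlim := tendsto_measure_iInter_atTop (μ := μ.prod ν)
      (fun n => (hmeas n).nullMeasurableSet) hanti ⟨0, measure_ne_top _ _⟩
    refine lt_of_lt_of_le (ENNReal.ofReal_pos.2 hc0) ?_
    exact ge_of_tendsto' hlim hlow

end Pool.H878.ERW
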