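import Pool.Agent.Helper878.ERW.Defs

set_option autoImplicit false

open MeasureTheory Filter Topology
open scoped BigOperators ENNReal

namespace Pool.H878.ERW



theorem pa_om_nonneg (a b : ℤ → ℕ) (x : ℤ) (i : ℕ) : 0 ≤ om a b x i := by
  unfold om; split_ifs <;> norm_num

theorem pa_om_le (a b : ℤ → ℕ) (x : ℤ) (i : ℕ) : om a b x i ≤ 1 := by
  unfold om; split_ifs <;> norm_num

theorem pa_stay_nonneg (a b : ℤ → ℕ) : ∀ (n : ℕ) (x : ℤ) (c : ℤ → ℕ), 0 ≤ stay (om a b) n x c := by
  intro n
  induction n with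
  | zero => intro x c; simp [stay]
  | succ n ih =>
    intro x c
    simp only [stay]
    have h1 := pa_om_nonneg a b x (c x + 1)
    have h2 := pa_om_le a b x (c x + 1)
    apply add_nonneg
    · apply mul_nonneg h1
      split_ifs
      · exact ih _ _
      · exact le_rfl
    · apply mul_nonneg (by linarith)
      split_ifs
      · exact ih _ _
      · exact le_rfl

/-- the distance to the right end -/
noncomputable def paH (N : ℕ) (x : ℤ) : ℝ := max ((N : ℝ) + 1 - x) 0

/-- the remaining factor of the site `y` -/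
noncomputable def paR (a b : ℤ → ℕ) (N y k : ℕ) : ℝ :=
  (1 - 1 / ((N : ℝ) + 1 - y)) ^ (a y - k) *
    (1 + 1 / ((N : ℝ) + 1 - y)) ^ (min (b y) (a y + b y - k))

/-- the potential -/
noncomputable def paPsi (a b : ℤ → ℕ) (N : ℕ) (x : ℤ) (c : ℤ → ℕ) : ℝ :=
  paH N x / ((N : ℝ) + 1) * (∏ y ∈ Finset.Icc 1 N, paR a b N y (c (y : ℤ))) *
    (if c ((N : ℤ) + 1) = 0 then 1 else 0)

theorem pa_h_ge {N y : ℕ} (hy : y ∈ Finset.Icc 1 N) : 1 ≤ (N : ℝ) + 1 - y := by
  have h1 := (Finset.mem_Icc.1 hy).2
  have h2 : (y : ℝ) ≤ N := by exact_mod_cast h1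
  linarith

theorem paR_nonneg {a b : ℤ → ℕ} {N y k : ℕ} (hy : y ∈ Finset.Icc 1 N) : 0 ≤ paR a b N y k := by
  have h := pa_h_ge hy
  unfold paR
  apply mul_nonneg
  · apply pow_nonneg
    rw [sub_nonneg, div_le_one (by linarith)]
    exact h
  · apply pow_nonneg
    have : 0 ≤ 1 / ((N : ℝ) + 1 - y) := by
      apply div_nonneg zero_le_one; linarith
    linarith

theorem paH_nonneg (N : ℕ) (x : ℤ) : 0 ≤ paH N x := le_max_right _ _

theorem paPsi_nonneg (a b : ℤ → ℕ) (N : ℕ) (x : ℤ) (c : ℤ → ℕ) : 0 ≤ paPsi a b N x c := by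
  unfold paPsi
  apply mul_nonneg
  · apply mul_nonneg
    · exact div_nonneg (paH_nonneg _ _) (by positivity)
    · exact Finset.prod_nonneg fun y hy => paR_nonneg hy
  · split_ifs <;> norm_num

theorem paR_step (a b : ℤ → ℕ) (N y k : ℕ) (hy : y ∈ Finset.Icc 1 N) :
    om a b y (k + 1) * (((N : ℝ) + 1 - y - 1) * paR a b N y (k + 1)) +
      (1 - om a b y (k + 1)) * (((N : ℝ) + 1 - y + 1) * paR a b N y (k + 1)) =
      ((N : ℝ) + 1 - y) * paR a b N y k := by
  have h1 := pa_h_ge hy
  unfold paR om
  generalize (N : ℝ) + 1 - y = h at h1 ⊢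
  have h0 : h ≠ 0 := by linarith
  rw [if_neg (Nat.succ_ne_zero k)]
  by_cases c1 : k + 1 ≤ a y
  · rw [if_pos c1]
    have e1 : a y - k = (a y - (k + 1)) + 1 := by omega
    have e2 : min (b y) (a y + b y - k) = b y := by omega
    have e3 : min (b y) (a y + b y - (k + 1)) = b y := by omega
    rw [e1, e2, e3, pow_succ]
    generalize (1 - 1 / h) ^ (a y - (k + 1)) = A
    generalize (1 + 1 / h) ^ (b y) = B
    field_simp
    ring
  · rw [if_neg c1]
    have e4 : a y - (k + 1) = 0 := by omega
    have e5 : a y - k = 0 := by omega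
    by_cases c2 : k + 1 ≤ a y + b y
    · rw [if_pos c2]
      have e2 : min (b y) (a y + b y - k) = (a y + b y - (k + 1)) + 1 := by omega
      have e3 : min (b y) (a y + b y - (k + 1)) = a y + b y - (k + 1) := by omega
      rw [e4, e5, e2, e3, pow_succ]
      generalize (1 + 1 / h) ^ (a y + b y - (k + 1)) = B
      field_simp
      ring
    · rw [if_neg c2]
      have e2 : min (b y) (a y + b y - k) = 0 := by omega
      have e3 : min (b y) (a y + b y - (k + 1)) = 0 := by omega
      rw [e4, e5, e2, e3]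
      ring

theorem paPsi_step (a b : ℤ → ℕ) (N : ℕ) (x : ℤ) (hx : 1 ≤ x) (c : ℤ → ℕ) :
    om a b x (c x + 1) * paPsi a b N (x + 1) (Function.update c x (c x + 1)) +
      (1 - om a b x (c x + 1)) * paPsi a b N (x - 1) (Function.update c x (c x + 1)) ≤
      paPsi a b N x c := by
  rcases lt_trichotomy x ((N : ℤ) + 1) with hlt | heq | hgt
  · obtain ⟨y, rfl⟩ : ∃ y : ℕ, x = y := ⟨x.toNat, by omega⟩
    have hy : y ∈ Finset.Icc 1 N := by rw [Finset.mem_Icc]; omega
    have e1 : ∏ z ∈ Finset.Icc 1 N, paR a b N z (Function.update c (y : ℤ) (c y + 1) (z : ℤ))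
        = paR a b N y (c y + 1) * ∏ z ∈ (Finset.Icc 1 N).erase y, paR a b N z (c z) := by
      rw [← Finset.mul_prod_erase _ _ hy, Function.update_self]
      congr 1
      apply Finset.prod_congr rfl
      intro z hz
      rw [Function.update_of_ne]
      intro h
      exact (Finset.mem_erase.1 hz).1 (by exact_mod_cast h)
    have e2 : ∏ z ∈ Finset.Icc 1 N, paR a b N z (c z)
        = paR a b N y (c y) * ∏ z ∈ (Finset.Icc 1 N).erase y, paR a b N z (c z) :=
      (Finset.mul_prod_erase _ _ hy).symm
    have e3 : Function.update c (y : ℤ) (c y + 1) ((N : ℤ) + 1) = c ((N : ℤ) + 1) := by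
      rw [Function.update_of_ne]; omega
    have hh := pa_h_ge hy
    have e4 : paH N ((y : ℤ) + 1) = (N : ℝ) + 1 - y - 1 := by
      unfold paH
      push_cast
      rw [max_eq_left (by linarith)]
      ring
    have e5 : paH N ((y : ℤ) - 1) = (N : ℝ) + 1 - y + 1 := by
      unfold paH
      push_cast
      rw [max_eq_left (by linarith)]
      ring
    have e6 : paH N (y : ℤ) = (N : ℝ) + 1 - y := by
      unfold paH
      push_cast
      rw [max_eq_left (by linarith)]
    unfold paPsi
    rw [e1, e2, e3, e4, e5, e6]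
    have key := paR_step a b N y (c y) hy
    generalize om a b (y : ℤ) (c y + 1) = p at key ⊢
    generalize paR a b N y (c y + 1) = R' at key ⊢
    generalize paR a b N y (c y) = R at key ⊢
    generalize ∏ z ∈ (Finset.Icc 1 N).erase y, paR a b N z (c z) = P
    generalize (if c ((N : ℤ) + 1) = 0 then (1 : ℝ) else 0) = I
    apply le_of_eq
    calc _ = (p * (((N : ℝ) + 1 - y - 1) * R') + (1 - p) * (((N : ℝ) + 1 - y + 1) * R')) *
          (P * I / ((N : ℝ) + 1)) := by ring
      _ = _ := by rw [key]; ring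
  · subst heq
    have e : ∀ z : ℤ, paPsi a b N z
        (Function.update c ((N : ℤ) + 1) (c ((N : ℤ) + 1) + 1)) = 0 := by
      intro z
      unfold paPsi
      rw [Function.update_self, if_neg (Nat.succ_ne_zero _), mul_zero]
    rw [e, e, mul_zero, mul_zero, add_zero]
    exact paPsi_nonneg _ _ _ _ _
  · have hx' : ((N : ℤ) : ℝ) + 2 ≤ (x : ℝ) := by exact_mod_cast (by omega : (N : ℤ) + 2 ≤ x)
    rw [Int.cast_natCast] at hx'
    have e4 : paH N (x + 1) = 0 := by
      unfold paH
      push_cast
      rw [max_eq_right (by linarith)]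
    have e5 : paH N (x - 1) = 0 := by
      unfold paH
      push_cast
      rw [max_eq_right (by linarith)]
    have e : ∀ (z : ℤ) (c' : ℤ → ℕ), paH N z = 0 → paPsi a b N z c' = 0 := by
      intro z c' hz
      unfold paPsi
      rw [hz, zero_div, zero_mul, zero_mul]
    rw [e _ _ e4, e _ _ e5, mul_zero, mul_zero, add_zero]
    exact paPsi_nonneg _ _ _ _ _

structure PaInv (a : ℤ → ℕ) (x : ℤ) (c : ℤ → ℕ) (mx : ℕ) : Prop where
  le : x ≤ mx
  one : 1 ≤ mx
  zero : ∀ y : ℤ, (mx : ℤ) < y → c y = 0
  used : ∀ y : ℤ, x < y → y ≤ mx → a y < c y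

theorem pa_zero {a b : ℤ → ℕ} {c : ℤ → ℕ} {mx M : ℕ} (hI : PaInv a 0 c mx) (hM : mx ≤ M) :
    1 ≤ ∑ N ∈ Finset.Icc 1 M, paPsi a b N 0 c := by
  have h1 : 1 ≤ paPsi a b mx 0 c := by
    unfold paPsi
    rw [hI.zero _ (by omega), if_pos rfl, mul_one]
    have e1 : paH mx 0 = (mx : ℝ) + 1 := by
      unfold paH
      rw [Int.cast_zero, sub_zero, max_eq_left (by positivity)]
    rw [e1, div_self (by positivity), one_mul]
    calc (1 : ℝ) = ∏ y ∈ Finset.Icc 1 mx, (1 : ℝ) := by rw [Finset.prod_const_one]
      _ ≤ _ := by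
        apply Finset.prod_le_prod
        · intro y _; exact zero_le_one
        · intro y hy
          have hh := pa_h_ge hy
          have hy' := Finset.mem_Icc.1 hy
          have hu := hI.used (y : ℤ) (by omega) (by omega)
          unfold paR
          rw [show a (y : ℤ) - c (y : ℤ) = 0 by omega, pow_zero, one_mul]
          apply one_le_pow₀
          have : 0 ≤ 1 / ((mx : ℝ) + 1 - y) := by
            apply div_nonneg zero_le_one; linarith
          linarith
  refine h1.trans ?_
  exact Finset.single_le_sum (f := fun N => paPsi a b N 0 c)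
    (fun N _ => paPsi_nonneg _ _ _ _ _) (Finset.mem_Icc.2 ⟨hI.one, hM⟩)

theorem pa_claim (a b : ℤ → ℕ) (M : ℕ) : ∀ (n : ℕ) (x : ℤ) (c : ℤ → ℕ) (mx : ℕ),
    PaInv a x c mx → 1 ≤ x → mx + n ≤ M →
    1 - stay (om a b) n x c ≤ ∑ N ∈ Finset.Icc 1 M, paPsi a b N x c := by
  intro n
  induction n with
  | zero =>
    intro x c mx _ _ _
    simp only [stay, sub_self]
    exact Finset.sum_nonneg fun N _ => paPsi_nonneg _ _ _ _ _
  | succ n ih =>
    intro x c mx hI hx hM
    simp only [stay]
    rw [if_pos (by omega : (1 : ℤ) ≤ x + 1)]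
    have hp0 := pa_om_nonneg a b x (c x + 1)
    have hp1 := pa_om_le a b x (c x + 1)
    set c' := Function.update c x (c x + 1) with hc'
    have hcx : c' x = c x + 1 := Function.update_self _ _ _
    have hcn : ∀ y, y ≠ x → c' y = c y := fun y hy => Function.update_of_ne hy _ _
    have hR : 1 - stay (om a b) n (x + 1) c' ≤ ∑ N ∈ Finset.Icc 1 M, paPsi a b N (x + 1) c' := by
      rcases lt_or_eq_of_le hI.le with hlt | heq
      · refine ih (x + 1) c' mx ⟨by omega, hI.one, ?_, ?_⟩ (by omega) (by omega)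
        · intro y hy
          rw [hcn y (by omega)]
          exact hI.zero y hy
        · intro y hy1 hy2
          rw [hcn y (by omega)]
          exact hI.used y (by omega) hy2
      · refine ih (x + 1) c' (mx + 1) ⟨by push_cast; omega, by omega, ?_, ?_⟩ (by omega) (by omega)
        · intro y hy
          push_cast at hy
          rw [hcn y (by omega)]
          exact hI.zero y (by omega)
        · intro y hy1 hy2
          push_cast at hy2
          omega
    have hL : om a b x (c x + 1) < 1 → 1 - (if 1 ≤ x - 1 then stay (om a b) n (x - 1) c' else 0) ≤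
        ∑ N ∈ Finset.Icc 1 M, paPsi a b N (x - 1) c' := by
      intro hp
      have hac : a x ≤ c x := by
        by_contra hcon
        push Not at hcon
        unfold om at hp
        rw [if_neg (Nat.succ_ne_zero _), if_pos (by omega)] at hp
        exact lt_irrefl _ hp
      have hI' : PaInv a (x - 1) c' mx := by
        refine ⟨by have := hI.le; omega, hI.one, ?_, ?_⟩
        · intro y hy
          rw [hcn y (by have := hI.le; omega)]
          exact hI.zero y hy
        · intro y hy1 hy2
          by_cases hyx : y = x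
          · subst hyx
            rw [hcx]; omega
          · rw [hcn y hyx]
            exact hI.used y (by omega) hy2
      by_cases hx1 : 1 ≤ x - 1
      · rw [if_pos hx1]
        exact ih (x - 1) c' mx hI' hx1 (by omega)
      · rw [if_neg hx1, sub_zero]
        have hx0 : x - 1 = 0 := by omega
        rw [hx0] at hI' ⊢
        exact pa_zero hI' (by omega)
    have hS : om a b x (c x + 1) * (∑ N ∈ Finset.Icc 1 M, paPsi a b N (x + 1) c') +
        (1 - om a b x (c x + 1)) * (∑ N ∈ Finset.Icc 1 M, paPsi a b N (x - 1) c') ≤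
        ∑ N ∈ Finset.Icc 1 M, paPsi a b N x c := by
      rw [Finset.mul_sum, Finset.mul_sum, ← Finset.sum_add_distrib]
      exact Finset.sum_le_sum fun N _ => paPsi_step a b N x hx c
    refine le_trans ?_ hS
    generalize om a b x (c x + 1) = p at *
    have h1 : p * (1 - stay (om a b) n (x + 1) c') ≤
        p * ∑ N ∈ Finset.Icc 1 M, paPsi a b N (x + 1) c' := mul_le_mul_of_nonneg_left hR hp0
    have h2 : (1 - p) * (1 - (if 1 ≤ x - 1 then stay (om a b) n (x - 1) c' else 0)) ≤
        (1 - p) * ∑ N ∈ Finset.Icc 1 M, paPsi a b N (x - 1) c' := by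
      rcases lt_or_eq_of_le hp1 with hlt | heq
      · exact mul_le_mul_of_nonneg_left (hL hlt) (by linarith)
      · rw [heq, sub_self, zero_mul, zero_mul]
    linarith

/-- departures after `K` forced steps -/
def paC (K : ℕ) : ℤ → ℕ := fun y => if 0 ≤ y ∧ y < K then 1 else 0

theorem pa_start (a b : ℤ → ℕ) (hab : ∀ y, a y = 0 → b y = 0) : ∀ (K m : ℕ),
    (1 / 2 : ℝ) ^ K * stay (om a b) m K (paC K) ≤ stay (om a b) (K + m) 0 (paC 0) := by
  intro K
  induction K with
  | zero => intro m; simp
  | succ K ih =>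
    intro m
    have h1 : (1 / 2 : ℝ) * stay (om a b) m ((K + 1 : ℕ) : ℤ) (paC (K + 1)) ≤
        stay (om a b) (m + 1) K (paC K) := by
      simp only [stay]
      rw [if_pos (by omega : (1 : ℤ) ≤ (K : ℤ) + 1)]
      have e0 : paC K (K : ℤ) = 0 := by
        unfold paC
        rw [if_neg]
        omega
      have e1 : Function.update (paC K) (K : ℤ) (paC K (K : ℤ) + 1) = paC (K + 1) := by
        funext y
        by_cases hy : y = K
        · subst hy
          rw [Function.update_self, e0]
          unfold paC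
          rw [if_pos (by push_cast; omega)]
        · rw [Function.update_of_ne hy]
          unfold paC
          by_cases h : 0 ≤ y ∧ y < K
          · rw [if_pos h, if_pos (by push_cast; omega)]
          · rw [if_neg h, if_neg (by push_cast; omega)]
      rw [e1, e0]
      have hp : 1 / 2 ≤ om a b K (0 + 1) := by
        unfold om
        rw [if_neg (by norm_num)]
        by_cases h : 0 + 1 ≤ a (K : ℤ)
        · rw [if_pos h]; norm_num
        · have ha : a (K : ℤ) = 0 := by omega
          have hb := hab _ ha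
          rw [if_neg h, if_neg (by omega)]
      have hp1 := pa_om_le a b K (0 + 1)
      have hs := pa_stay_nonneg a b m ((K : ℤ) + 1) (paC (K + 1))
      have hcast : ((K + 1 : ℕ) : ℤ) = (K : ℤ) + 1 := by push_cast; ring
      rw [hcast]
      have h2 : 0 ≤ (1 - om a b K (0 + 1)) *
          (if (1 : ℤ) ≤ (K : ℤ) - 1 then stay (om a b) m ((K : ℤ) - 1) (paC (K + 1)) else 0) := by
        apply mul_nonneg (by linarith)
        split_ifs
        · exact pa_stay_nonneg _ _ _ _ _
        · exact le_rfl
      have h3 := mul_le_mul_of_nonneg_right hp hs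
      linarith
    have h2 := ih (m + 1)
    have h3 : K + 1 + m = K + (m + 1) := by ring
    rw [h3]
    refine le_trans ?_ h2
    rw [pow_succ, mul_assoc]
    exact mul_le_mul_of_nonneg_left h1 (by positivity)

theorem pa_tel (N : ℕ) (j : ℕ) (hj1 : 1 ≤ j) (hjN : j ≤ N) :
    ∏ y ∈ Finset.Ico 1 j, (((N : ℝ) + 1 - y) / ((N : ℝ) - y)) = N / ((N : ℝ) + 1 - j) := by
  induction j, hj1 using Nat.le_induction with
  | base =>
    have : (N : ℝ) ≠ 0 := by
      have : 1 ≤ N := hjN
      positivity
    simp only [Finset.Ico_self, Finset.prod_empty, Nat.cast_one]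
    rw [show (N : ℝ) + 1 - 1 = N by ring, div_self this]
  | succ j hj ih =>
    rw [Finset.prod_Ico_succ_top hj, ih (by omega)]
    have h1 : ((j : ℕ) : ℝ) + 1 ≤ N := by exact_mod_cast hjN
    have h2 : (N : ℝ) - j ≠ 0 := by
      have : 0 < (N : ℝ) - j := by linarith
      exact this.ne'
    have h3 : (N : ℝ) + 1 - j ≠ 0 := by
      have : 0 < (N : ℝ) + 1 - j := by linarith
      exact this.ne'
    push_cast
    rw [show (N : ℝ) + 1 - (j + 1) = N - j by ring]
    field_simp

theorem paPsi_K {a b : ℤ → ℕ} (hab : ∀ y, a y = 0 → b y = 0) {K N : ℕ} (hK : 1 ≤ K)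
    (hKN : K ≤ N) : paPsi a b N K (paC K) ≤ PP a b N := by
  have hNK : (K : ℝ) ≤ N := by exact_mod_cast hKN
  have hN1 : (1 : ℝ) ≤ N := by exact_mod_cast (hK.trans hKN)
  have hPP : PP a b N = ∏ y ∈ Finset.Icc 1 N, paR a b N y 0 := by
    unfold PP paR
    apply Finset.prod_congr rfl
    intro y _
    rw [Nat.sub_zero, Nat.sub_zero, min_eq_left (by omega)]
  have hPP0 : 0 ≤ PP a b N := by
    rw [hPP]
    exact Finset.prod_nonneg fun y hy => paR_nonneg hy
  have hprod : ∏ y ∈ Finset.Icc 1 N, paR a b N y (paC K (y : ℤ)) ≤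
      PP a b N * (N / ((N : ℝ) + 1 - K)) := by
    have h1 : ∏ y ∈ Finset.Icc 1 N, (if y < K then (((N : ℝ) + 1 - y) / ((N : ℝ) - y)) else 1)
        = N / ((N : ℝ) + 1 - K) := by
      rw [← pa_tel N K hK hKN]
      have h2 : ∏ y ∈ Finset.Ico 1 K, (((N : ℝ) + 1 - y) / ((N : ℝ) - y))
          = ∏ y ∈ Finset.Ico 1 K,
            (if y < K then (((N : ℝ) + 1 - y) / ((N : ℝ) - y)) else 1) := by
        apply Finset.prod_congr rfl
        intro y hy
        rw [if_pos (Finset.mem_Ico.1 hy).2]
      rw [h2]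
      symm
      apply Finset.prod_subset
      · intro y hy
        rw [Finset.mem_Ico] at hy
        rw [Finset.mem_Icc]
        omega
      · intro y hy hy'
        rw [Finset.mem_Icc] at hy
        rw [Finset.mem_Ico] at hy'
        rw [if_neg (by omega)]
    rw [← h1, hPP, ← Finset.prod_mul_distrib]
    apply Finset.prod_le_prod
    · intro y hy; exact paR_nonneg hy
    · intro y hy
      have hh := pa_h_ge hy
      by_cases hyK : y < K
      · rw [if_pos hyK]
        have e0 : paC K (y : ℤ) = 1 := by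
          unfold paC
          rw [if_pos (by omega)]
        rw [e0]
        have hyN : ((y : ℕ) : ℝ) + 1 ≤ K := by exact_mod_cast hyK
        have hd : 0 < (N : ℝ) - y := by linarith
        have e1 : (N : ℝ) + 1 - y = (N - y) + 1 := by ring
        unfold paR
        rw [Nat.sub_zero, Nat.sub_zero, e1]
        generalize (N : ℝ) - y = d at hd ⊢
        by_cases ha : a (y : ℤ) = 0
        · have hb := hab _ ha
          rw [ha, hb]
          simp only [pow_zero, Nat.zero_sub, min_self, mul_one, one_mul, Nat.zero_min,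
            Nat.add_zero]
          rw [one_le_div hd]
          linarith
        · have e2 : a (y : ℤ) = (a (y : ℤ) - 1) + 1 := by omega
          have e3 : min (b (y : ℤ)) (a (y : ℤ) + b (y : ℤ) - 1) = b (y : ℤ) := by omega
          have e4 : min (b (y : ℤ)) (a (y : ℤ) + b (y : ℤ)) = b (y : ℤ) := by omega
          rw [e3, e4]
          conv_rhs => rw [e2, pow_succ]
          generalize (1 - 1 / (d + 1)) ^ (a (y : ℤ) - 1) = X
          generalize (1 + 1 / (d + 1)) ^ (b (y : ℤ)) = Y
          apply le_of_eq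
          have hd1 : d + 1 ≠ 0 := by linarith
          have hd0 : d ≠ 0 := hd.ne'
          have e5 : (1 - 1 / (d + 1)) * ((d + 1) / d) = 1 := by
            field_simp
            ring
          calc X * Y = X * Y * ((1 - 1 / (d + 1)) * ((d + 1) / d)) := by rw [e5, mul_one]
            _ = _ := by ring
      · rw [if_neg hyK, mul_one]
        have e0 : paC K (y : ℤ) = 0 := by
          unfold paC
          rw [if_neg (by omega)]
        rw [e0]
  unfold paPsi
  have e0 : paC K ((N : ℤ) + 1) = 0 := by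
    unfold paC
    rw [if_neg (by omega)]
  rw [e0, if_pos rfl, mul_one]
  have e1 : paH N (K : ℤ) = (N : ℝ) + 1 - K := by
    unfold paH
    push_cast
    rw [max_eq_left (by linarith)]
  rw [e1]
  have hd : 0 < (N : ℝ) + 1 - K := by linarith
  calc ((N : ℝ) + 1 - K) / ((N : ℝ) + 1) * ∏ y ∈ Finset.Icc 1 N, paR a b N y (paC K (y : ℤ))
      ≤ ((N : ℝ) + 1 - K) / ((N : ℝ) + 1) * (PP a b N * (N / ((N : ℝ) + 1 - K))) :=
        mul_le_mul_of_nonneg_left hprod (div_nonneg hd.le (by positivity))
    _ = PP a b N * (N / ((N : ℝ) + 1)) := by field_simp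
    _ ≤ PP a b N * 1 := by
        apply mul_le_mul_of_nonneg_left _ hPP0
        rw [div_le_one (by positivity)]
        linarith
    _ = PP a b N := mul_one _

theorem partA (a b : ℤ → ℕ) (hab : ∀ y, a y = 0 → b y = 0) (p : ℕ → ℝ) (hp0 : ∀ N, 0 ≤ p N)
    (K : ℕ) (hK : 1 ≤ K) (hp : ∀ N, K ≤ N → PP a b N ≤ p N) (m : ℕ) :
    (1 / 2 : ℝ) ^ K * (1 - ∑ N ∈ Finset.Icc K (K + m), p N) ≤
      stay (om a b) (K + m) 0 (fun _ => 0) := by
  have hI : PaInv a (K : ℤ) (paC K) K := by
    refine ⟨le_rfl, hK, ?_, ?_⟩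
    · intro y hy
      unfold paC
      rw [if_neg (by omega)]
    · intro y h1 h2; omega
  have h1 := pa_claim a b (K + m) m (K : ℤ) (paC K) K hI (by omega) le_rfl
  have h2 : ∑ N ∈ Finset.Icc 1 (K + m), paPsi a b N K (paC K) ≤
      ∑ N ∈ Finset.Icc K (K + m), p N := by
    have h3 : ∑ N ∈ Finset.Icc K (K + m), paPsi a b N K (paC K)
        = ∑ N ∈ Finset.Icc 1 (K + m), paPsi a b N K (paC K) := by
      apply Finset.sum_subset
      · intro N hN
        rw [Finset.mem_Icc] at hN ⊢
        omega
      · intro N hN hN'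
        rw [Finset.mem_Icc] at hN hN'
        have hNK : N < K := by omega
        unfold paPsi
        by_cases hc : N + 1 < K
        · have e0 : paC K ((N : ℤ) + 1) = 1 := by
            unfold paC
            rw [if_pos (by omega)]
          rw [e0, if_neg one_ne_zero, mul_zero]
        · have hNK' : K = N + 1 := by omega
          have e1 : paH N (K : ℤ) = 0 := by
            unfold paH
            rw [hNK']
            push_cast
            rw [sub_self, max_self]
          rw [e1, zero_div, zero_mul, zero_mul]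
    rw [← h3]
    apply Finset.sum_le_sum
    intro N hN
    rw [Finset.mem_Icc] at hN
    exact (paPsi_K hab hK hN.1).trans (hp N hN.1)
  have h3 := pa_start a b hab K m
  have h4 : paC 0 = fun _ => 0 := by
    funext y
    unfold paC
    rw [if_neg (by omega)]
  rw [h4] at h3
  refine le_trans ?_ h3
  apply mul_le_mul_of_nonneg_left _ (by positivity)
  linarith

end Pool.H878.ERW
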